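import Mathlib

/-!
# Products over the primitive characters of given parity are rational
-/

set_option autoImplicit false

namespace Pool.Agent.H424.GA

open Finset

/-- the field of the `φ(f)`-th roots of unity -/
noncomputable def LL (f : ℕ) : IntermediateField ℚ ℂ :=
  IntermediateField.adjoin ℚ {Complex.exp (2 * Real.pi * Complex.I / (f.totient : ℕ))}

section
variable (f : ℕ) [NeZero f]

instance tot_ne : NeZero f.totient := ⟨(Nat.totient_pos.2 (NeZero.pos f)).ne'⟩

lemma zeta_prim : IsPrimitiveRoot (Complex.exp (2 * Real.pi * Complex.I / (f.totient : ℕ))) f.totient :=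
  Complex.isPrimitiveRoot_exp _ (NeZero.ne f.totient)

instance cyc_LL : IsCyclotomicExtension {f.totient} ℚ (LL f) := by
  have h1 := (zeta_prim f).adjoin_isCyclotomicExtension ℚ
  have h2 : IsIntegral ℚ (Complex.exp (2 * Real.pi * Complex.I / (f.totient : ℕ))) :=
    (zeta_prim f).isIntegral (NeZero.pos f.totient) |>.tower_top
  have h3 := IntermediateField.adjoin_simple_toSubalgebra_of_isAlgebraic h2.isAlgebraic
  show IsCyclotomicExtension {f.totient} ℚ (LL f).toSubalgebra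
  rw [LL, h3]
  exact h1

instance fd_LL : FiniteDimensional ℚ (LL f) := IsCyclotomicExtension.finiteDimensional {f.totient} ℚ (LL f)

instance nf_LL : NumberField (LL f) := ⟨⟩

instance gal_LL : IsGalois ℚ (LL f) := IsCyclotomicExtension.isGalois {f.totient} ℚ (LL f)

variable {f}

lemma mem_LL (ψ : DirichletCharacter ℂ f) (a : ZMod f) : ψ a ∈ LL f := by
  by_cases ha : IsUnit a
  · obtain ⟨U, rfl⟩ := ha
    have h1 : ψ (U : ZMod f) ^ f.totient = 1 := by
      rw [← map_pow, ← Units.val_pow_eq_pow_val, ZMod.pow_totient, Units.val_one, map_one]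
    obtain ⟨i, _, hi⟩ := (zeta_prim f).eq_pow_of_pow_eq_one h1
    rw [← hi]
    exact pow_mem (IntermediateField.mem_adjoin_simple_self ℚ _) i
  · rw [ψ.map_nonunit ha]
    exact zero_mem _

/-- the character with values in the field -/
noncomputable def chL (ψ : DirichletCharacter ℂ f) : MulChar (ZMod f) (LL f) where
  toFun a := ⟨ψ a, mem_LL ψ a⟩
  map_one' := Subtype.ext (map_one ψ)
  map_mul' a b := Subtype.ext (map_mul ψ a b)
  map_nonunit' _ ha := Subtype.ext (ψ.map_nonunit ha)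

lemma chL_coe (ψ : DirichletCharacter ℂ f) (a : ZMod f) : ((chL ψ a : LL f) : ℂ) = ψ a := rfl

/-- the Galois action on characters -/
noncomputable def act (σ : LL f ≃ₐ[ℚ] LL f) (ψ : DirichletCharacter ℂ f) : DirichletCharacter ℂ f :=
  (chL ψ).ringHomComp ((algebraMap (LL f) ℂ).comp (σ : LL f →+* LL f))

lemma act_apply (σ : LL f ≃ₐ[ℚ] LL f) (ψ : DirichletCharacter ℂ f) (a : ZMod f) :
    act σ ψ a = ((σ (chL ψ a) : LL f) : ℂ) := rfl

lemma chL_act (σ : LL f ≃ₐ[ℚ] LL f) (ψ : DirichletCharacter ℂ f) (a : ZMod f) :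
    chL (act σ ψ) a = σ (chL ψ a) := Subtype.ext rfl

lemma act_symm (σ : LL f ≃ₐ[ℚ] LL f) (ψ : DirichletCharacter ℂ f) : act σ.symm (act σ ψ) = ψ := by
  apply MulChar.ext'
  intro a
  rw [act_apply, chL_act, AlgEquiv.symm_apply_apply]
  rfl

lemma act_symm' (σ : LL f ≃ₐ[ℚ] LL f) (ψ : DirichletCharacter ℂ f) : act σ (act σ.symm ψ) = ψ := by
  apply MulChar.ext'
  intro a
  rw [act_apply, chL_act, AlgEquiv.apply_symm_apply]
  rfl

lemma factors_iff (ψ : DirichletCharacter ℂ f) (d : ℕ) : ψ.FactorsThrough d ↔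
    ∃ h : d ∣ f, ∀ u : (ZMod f)ˣ, ZMod.unitsMap h u = 1 → ψ u = 1 := by
  constructor
  · intro h
    have hd : d ∣ f := h.dvd
    refine ⟨hd, fun u hu => ?_⟩
    have h1 := (DirichletCharacter.factorsThrough_iff_ker_unitsMap hd).1 h
    have h2 : u ∈ ψ.toUnitHom.ker := h1 (by rwa [MonoidHom.mem_ker])
    rw [MonoidHom.mem_ker] at h2
    have h3 := congrArg Units.val h2
    rwa [MulChar.coe_toUnitHom] at h3
  · rintro ⟨hd, h⟩
    rw [DirichletCharacter.factorsThrough_iff_ker_unitsMap hd]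
    intro u hu
    rw [MonoidHom.mem_ker] at hu ⊢
    apply Units.ext
    rw [MulChar.coe_toUnitHom]
    exact h u hu

lemma act_prim (σ : LL f ≃ₐ[ℚ] LL f) (ψ : DirichletCharacter ℂ f) (h : ψ.IsPrimitive) :
    (act σ ψ).IsPrimitive := by
  have h1 : ∀ a : ZMod f, act σ ψ a = 1 ↔ ψ a = 1 := by
    intro a
    rw [act_apply, ← chL_coe]
    constructor
    · intro h2
      have h3 : σ (chL ψ a) = 1 := Subtype.ext h2
      have h4 : chL ψ a = 1 := by
        apply σ.injective
        rw [h3, map_one]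
      rw [h4]
      rfl
    · intro h2
      have h3 : chL ψ a = 1 := Subtype.ext h2
      rw [h3, map_one]
      rfl
  have h2 : ∀ d, (act σ ψ).FactorsThrough d ↔ ψ.FactorsThrough d := by
    intro d
    rw [factors_iff, factors_iff]
    simp only [h1]
  rw [DirichletCharacter.isPrimitive_def] at h ⊢
  have h3 : (act σ ψ).conductor = ψ.conductor := by
    unfold DirichletCharacter.conductor DirichletCharacter.conductorSet
    congr 1
    ext d
    exact h2 d
  rw [h3, h]

/-- the primitive characters modulo `f` of the parity of `m` -/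
noncomputable def AA (f : ℕ) [NeZero f] (m : ℕ) : Finset (DirichletCharacter ℂ f) :=
  (Set.toFinite {ψ : DirichletCharacter ℂ f | ψ.IsPrimitive ∧ ψ (-1) = (-1) ^ m}).toFinset

lemma mem_AA {m : ℕ} {ψ : DirichletCharacter ℂ f} : ψ ∈ AA f m ↔ ψ.IsPrimitive ∧ ψ (-1) = (-1) ^ m := by
  unfold AA
  rw [Set.Finite.mem_toFinset]
  exact Iff.rfl

lemma act_mem {m : ℕ} (σ : LL f ≃ₐ[ℚ] LL f) {ψ : DirichletCharacter ℂ f} (h : ψ ∈ AA f m) :
    act σ ψ ∈ AA f m := by
  rw [mem_AA] at h ⊢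
  refine ⟨act_prim σ ψ h.1, ?_⟩
  rw [act_apply]
  have h1 : chL ψ (-1) = (-1) ^ m := by
    apply Subtype.ext
    rw [chL_coe, h.2]
    push_cast
    rfl
  rw [h1, map_pow, map_neg, map_one]
  push_cast
  rfl

theorem prod_int (m : ℕ) (c : ZMod f → ℤ) :
    ∃ P : ℤ, ∏ ψ ∈ AA f m, ∑ j : ZMod f, ψ j * (c j : ℂ) = P := by
  set PL : LL f := ∏ ψ ∈ AA f m, ∑ j : ZMod f, chL ψ j * (c j : LL f) with hPL
  have hcoe : ((PL : LL f) : ℂ) = ∏ ψ ∈ AA f m, ∑ j : ZMod f, ψ j * (c j : ℂ) := by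
    have h1 : ((PL : LL f) : ℂ) = algebraMap (LL f) ℂ PL := rfl
    rw [h1, hPL, map_prod]
    refine Finset.prod_congr rfl fun ψ _ => ?_
    rw [map_sum]
    refine Finset.sum_congr rfl fun j _ => ?_
    rw [map_mul, map_intCast]
    rfl
  have hfix : ∀ σ : LL f ≃ₐ[ℚ] LL f, σ PL = PL := by
    intro σ
    rw [hPL, map_prod]
    refine Finset.prod_bij' (fun ψ _ => act σ ψ) (fun ψ _ => act σ.symm ψ) (fun ψ h => act_mem σ h)
      (fun ψ h => act_mem σ.symm h) (fun ψ _ => act_symm σ ψ) (fun ψ _ => act_symm' σ ψ) ?_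
    intro ψ _
    rw [map_sum]
    refine Finset.sum_congr rfl fun j _ => ?_
    rw [map_mul, map_intCast, chL_act]
  have hbot : PL ∈ (⊥ : IntermediateField ℚ (LL f)) := (IsGalois.mem_bot_iff_fixed PL).2 hfix
  rw [IntermediateField.mem_bot] at hbot
  obtain ⟨q, hq⟩ := hbot
  have hq2 : ∏ ψ ∈ AA f m, ∑ j : ZMod f, ψ j * (c j : ℂ) = (q : ℂ) := by
    rw [← hcoe, ← hq]
    simp
  have hint : IsIntegral ℤ (q : ℂ) := by
    rw [← hq2]
    refine IsIntegral.prod _ fun ψ _ => IsIntegral.sum _ fun j _ => IsIntegral.mul ?_ ?_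
    · by_cases hj : IsUnit j
      · obtain ⟨U, rfl⟩ := hj
        have h1 : ψ (U : ZMod f) ^ f.totient = 1 := by
          rw [← map_pow, ← Units.val_pow_eq_pow_val, ZMod.pow_totient, Units.val_one, map_one]
        exact IsIntegral.of_pow (NeZero.pos f.totient) (by rw [h1]; exact isIntegral_one)
      · rw [ψ.map_nonunit hj]
        exact isIntegral_zero
    · exact isIntegral_algebraMap (R := ℤ) (x := c j)
  have hint2 : IsIntegral ℤ q := by
    rw [← isIntegral_algebraMap_iff (algebraMap ℚ ℂ).injective]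
    simpa using hint
  obtain ⟨P, hP⟩ := IsIntegrallyClosed.isIntegral_iff.mp hint2
  refine ⟨P, ?_⟩
  rw [hq2, ← hP]
  simp

end

end Pool.Agent.H424.GA
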