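import Mathlib
import Pool.Agent.H332R2.IrrCount

/-!
# Properties of almost all primes
-/

set_option autoImplicit false

namespace Pool.Agent.H424.GA

open Finset Filter Topology

open Classical in
/-- the primes `p` between `√X` and `X` without the property `G` -/
noncomputable def exc (G : ℕ → Prop) (X : ℕ) : Finset ℕ :=
  (range (X + 1)).filter (fun p => p.Prime ∧ √(X : ℝ) ≤ (p : ℝ) ∧ ¬ G p)

/-- `G` holds for almost all primes -/
def Few (G : ℕ → Prop) : Prop :=
  ∀ ε : ℝ, 0 < ε → ∀ᶠ X : ℕ in atTop, ((exc G X).card : ℝ) ≤ ε * ((X : ℝ) / Real.log X)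

lemma mem_exc {G : ℕ → Prop} {X p : ℕ} : p ∈ exc G X ↔ p ≤ X ∧ p.Prime ∧ √(X : ℝ) ≤ (p : ℝ) ∧ ¬ G p := by
  classical
  unfold exc
  rw [mem_filter, mem_range, Nat.lt_succ_iff]

lemma Few.and {G H : ℕ → Prop} (hG : Few G) (hH : Few H) : Few (fun p => G p ∧ H p) := by
  classical
  intro ε hε
  filter_upwards [hG (ε / 2) (by positivity), hH (ε / 2) (by positivity)] with X h1 h2
  have h3 : exc (fun p => G p ∧ H p) X ⊆ exc G X ∪ exc H X := by
    intro p hp
    rw [mem_exc] at hp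
    rw [mem_union, mem_exc, mem_exc]
    by_cases hg : G p
    · exact Or.inr ⟨hp.1, hp.2.1, hp.2.2.1, fun h => hp.2.2.2 ⟨hg, h⟩⟩
    · exact Or.inl ⟨hp.1, hp.2.1, hp.2.2.1, hg⟩
  have h4 : ((exc (fun p => G p ∧ H p) X).card : ℝ) ≤ (exc G X).card + (exc H X).card := by
    exact_mod_cast (card_le_card h3).trans (card_union_le _ _)
  linarith

lemma Few.mono {G H : ℕ → Prop} (hG : Few G) (h : ∃ P : ℕ, ∀ p, p.Prime → P ≤ p → G p → H p) : Few H := by
  intro ε hε
  obtain ⟨P, hP⟩ := h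
  filter_upwards [hG ε hε, eventually_ge_atTop (P ^ 2)] with X h1 h2
  refine le_trans ?_ h1
  refine Nat.cast_le.2 (card_le_card ?_)
  intro p hp
  rw [mem_exc] at hp ⊢
  refine ⟨hp.1, hp.2.1, hp.2.2.1, fun hg => hp.2.2.2 (hP p hp.2.1 ?_ hg)⟩
  have h3 : (P : ℝ) ≤ √(X : ℝ) := by
    apply Real.le_sqrt_of_sq_le
    exact_mod_cast h2
  exact_mod_cast h3.trans hp.2.2.1

lemma sqrt_small (ε : ℝ) (hε : 0 < ε) :
    ∀ᶠ X : ℕ in atTop, √(X : ℝ) + 1 ≤ ε * ((X : ℝ) / (2 * Real.log X)) := by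
  have h1 : Tendsto (fun X : ℕ => Real.log X * (Real.sqrt X + 1) / X) atTop (𝓝 0) := by
    have h2 : Tendsto (fun x : ℝ => Real.log x / x ^ (1 / 2 : ℝ)) atTop (𝓝 0) :=
      (isLittleO_log_rpow_atTop (by norm_num : (0 : ℝ) < 1 / 2)).tendsto_div_nhds_zero
    have h3 : Tendsto (fun x : ℝ => Real.log x / x) atTop (𝓝 0) := by
      have := Real.tendsto_pow_log_div_mul_add_atTop 1 0 1 one_ne_zero
      simpa using this
    have h4 := (h2.add h3).comp tendsto_natCast_atTop_atTop (α := ℕ)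
    rw [add_zero] at h4
    refine h4.congr' ?_
    filter_upwards [eventually_ge_atTop 1] with X hX
    have hX0 : (0 : ℝ) < X := by exact_mod_cast hX
    have hs : Real.sqrt X * Real.sqrt X = X := Real.mul_self_sqrt hX0.le
    have hs0 : 0 < Real.sqrt X := Real.sqrt_pos.mpr hX0
    simp only [Function.comp_apply]
    rw [← Real.sqrt_eq_rpow]
    rw [mul_add, mul_one, add_div]
    congr 1
    rw [div_eq_div_iff hs0.ne' hX0.ne', mul_assoc, hs]
  have h5 : ∀ᶠ X : ℕ in atTop, Real.log X * (Real.sqrt X + 1) / X < ε / 2 :=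
    h1.eventually (gt_mem_nhds (by positivity))
  filter_upwards [h5, eventually_ge_atTop 2] with X h6 hX
  have hX0 : (0 : ℝ) < X := by positivity
  have hlog : 0 < Real.log X := Real.log_pos (by exact_mod_cast (by omega : 1 < X))
  rw [div_lt_iff₀ hX0] at h6
  have h7 : ε * ((X : ℝ) / (2 * Real.log X)) = (ε / 2 * X) / Real.log X := by
    field_simp
  rw [h7, le_div_iff₀ hlog]
  linarith

theorem Few.tendsto {G : ℕ → Prop} (hG : Few G) :
    Tendsto (fun X : ℕ => (({p : ℕ | p ≤ X ∧ p.Prime ∧ G p}.ncard : ℕ) : ℝ) /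
      (({p : ℕ | p ≤ X ∧ p.Prime}.ncard : ℕ) : ℝ)) atTop (𝓝 1) := by
  classical
  have hcount : ∀ X : ℕ, {p : ℕ | p ≤ X ∧ p.Prime}.ncard =
      ((Finset.range (X + 1)).filter Nat.Prime).card := by
    intro X
    rw [← Set.ncard_coe_finset]
    congr 1
    ext p
    simp
  have hgood : ∀ X : ℕ, {p : ℕ | p ≤ X ∧ p.Prime ∧ G p}.ncard =
      ((Finset.range (X + 1)).filter (fun p => p.Prime ∧ G p)).card := by
    intro X
    rw [← Set.ncard_coe_finset]
    congr 1
    ext p
    simp only [Set.mem_ofPred_eq, Finset.coe_filter, Finset.mem_range, Nat.lt_succ_iff]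
  have hpart : ∀ X : ℕ, ((Finset.range (X + 1)).filter (fun p => p.Prime ∧ G p)).card +
      ((Finset.range (X + 1)).filter (fun p => p.Prime ∧ ¬ G p)).card =
      ((Finset.range (X + 1)).filter Nat.Prime).card := by
    intro X
    have := Finset.card_filter_add_card_filter_not (s := (Finset.range (X + 1)).filter Nat.Prime) G
    rw [Finset.filter_filter, Finset.filter_filter] at this
    exact this
  rw [Metric.tendsto_atTop']
  intro ε hε
  have hall : ∀ᶠ X : ℕ in atTop, (((Finset.range (X + 1)).filter (fun p => p.Prime ∧ ¬ G p)).card : ℝ) ≤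
      (ε / 2) * (((Finset.range (X + 1)).filter Nat.Prime).card : ℝ) := by
    filter_upwards [hG (ε / 8) (by positivity), sqrt_small (ε / 4) (by positivity),
      Pool.Agent.H332R2.pi_lower, eventually_ge_atTop 2] with X h1 h2 h3 h4
    have hsub : (Finset.range (X + 1)).filter (fun p => p.Prime ∧ ¬ G p) ⊆
        exc G X ∪ Finset.range ⌈√(X : ℝ)⌉₊ := by
      intro p hp
      rw [mem_filter, mem_range, Nat.lt_succ_iff] at hp
      rw [mem_union, mem_exc, mem_range]
      by_cases h : √(X : ℝ) ≤ (p : ℝ)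
      · exact Or.inl ⟨hp.1, hp.2.1, h, hp.2.2⟩
      · exact Or.inr (Nat.lt_ceil.2 (not_le.1 h))
    have h5 : (((Finset.range (X + 1)).filter (fun p => p.Prime ∧ ¬ G p)).card : ℝ) ≤
        (exc G X).card + (⌈√(X : ℝ)⌉₊ : ℕ) := by
      have := (card_le_card hsub).trans (card_union_le _ _)
      rw [card_range] at this
      exact_mod_cast this
    have h6 : ((⌈√(X : ℝ)⌉₊ : ℕ) : ℝ) < √(X : ℝ) + 1 := Nat.ceil_lt_add_one (Real.sqrt_nonneg _)
    have hlog : 0 < Real.log X := Real.log_pos (by exact_mod_cast (by omega : 1 < X))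
    have h7 : (X : ℝ) / Real.log X = 2 * ((X : ℝ) / (2 * Real.log X)) := by field_simp
    rw [h7] at h1
    have h8 := mul_le_mul_of_nonneg_left h3 (show (0 : ℝ) ≤ ε / 2 by positivity)
    linarith
  obtain ⟨X0, hX0⟩ := hall.exists_forall_of_atTop
  refine ⟨max X0 2, fun X hX => ?_⟩
  have hX1 : X0 ≤ X := le_of_lt (lt_of_le_of_lt (le_max_left _ _) hX)
  have hX2 : 2 ≤ X := le_of_lt (lt_of_le_of_lt (le_max_right _ _) hX)
  have h1 := hX0 X hX1
  rw [hgood, hcount]
  have h2 := hpart X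
  set g := ((Finset.range (X + 1)).filter (fun p => p.Prime ∧ G p)).card with hg
  set b := ((Finset.range (X + 1)).filter (fun p => p.Prime ∧ ¬ G p)).card with hb
  set P := ((Finset.range (X + 1)).filter Nat.Prime).card with hP
  have hPpos : 0 < P := by
    rw [hP, Finset.card_pos]
    exact ⟨2, by rw [Finset.mem_filter, Finset.mem_range]; exact ⟨by omega, Nat.prime_two⟩⟩
  have hPr : (0 : ℝ) < P := by exact_mod_cast hPpos
  have h3 : (g : ℝ) + b = P := by exact_mod_cast h2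
  rw [Real.dist_eq]
  have h4 : (g : ℝ) / P - 1 = - (b / P) := by
    field_simp; linarith
  rw [h4, abs_neg, abs_of_nonneg (by positivity), div_lt_iff₀ hPr]
  nlinarith

end Pool.Agent.H424.GA
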