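import Mathlib
import Pool.Agent.TH10.RP.JC

/-!
# The generalized Bernoulli numbers of primitive characters do not vanish
-/

set_option autoImplicit false

namespace Pool.Agent.H424.GA

open Finset Complex

/-- `∑_{x mod f} ψ(x) B_m(x / f)` -/
noncomputable def bsum (m : ℕ) {f : ℕ} [NeZero f] (ψ : DirichletCharacter ℂ f) : ℂ :=
  ∑ j : ZMod f, ψ j * (((Polynomial.bernoulli m).eval ((j.val : ℚ) / f) : ℚ) : ℂ)

lemma L_neg {m f : ℕ} [NeZero f] (hm : 2 ≤ m) (ψ : DirichletCharacter ℂ f) :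
    DirichletCharacter.LFunction ψ (1 - m) = (f : ℂ) ^ (m - 1) * (-1 / m * bsum m ψ) := by
  obtain ⟨k, rfl⟩ : ∃ k, m = k + 1 := ⟨m - 1, by omega⟩
  have hk : k ≠ 0 := by omega
  have hs : (1 : ℂ) - ((k + 1 : ℕ) : ℂ) = -(k : ℂ) := by push_cast; ring
  unfold DirichletCharacter.LFunction ZMod.LFunction bsum
  rw [hs, neg_neg, Complex.cpow_natCast, Nat.add_sub_cancel]
  congr 1
  rw [mul_sum]
  refine Finset.sum_congr rfl fun j _ => ?_
  have hf : (0 : ℝ) < f := Nat.cast_pos.2 (NeZero.pos f)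
  have hx : ((j.val : ℝ) / f) ∈ Set.Icc (0 : ℝ) 1 := by
    constructor
    · positivity
    · rw [div_le_one hf]
      exact_mod_cast (ZMod.val_lt j).le
  rw [ZMod.toAddCircle_apply, HurwitzZeta.hurwitzZeta_neg_nat hk hx]
  have h1 : ((Polynomial.bernoulli (k + 1)).map (algebraMap ℚ ℂ)).eval (((j.val : ℝ) / f : ℝ) : ℂ) =
      (((Polynomial.bernoulli (k + 1)).eval ((j.val : ℚ) / f) : ℚ) : ℂ) := by
    rw [Polynomial.eval_map]
    have h2 : (((j.val : ℝ) / f : ℝ) : ℂ) = algebraMap ℚ ℂ ((j.val : ℚ) / f) := by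
      push_cast
      simp
    rw [h2, Polynomial.eval₂_at_apply]
    rfl
  rw [h1]
  push_cast
  ring

lemma L_neg_ne_zero {m f : ℕ} [NeZero f] (hm : 2 ≤ m) (ψ : DirichletCharacter ℂ f)
    (hψ : ψ.IsPrimitive) (hpar : ψ (-1) = (-1) ^ m) : DirichletCharacter.LFunction ψ (1 - m) ≠ 0 := by
  -- the inverse character
  have hψ' : ψ⁻¹.IsPrimitive := by
    rw [DirichletCharacter.isPrimitive_def] at hψ ⊢
    rwa [DirichletCharacter.conductor_inv]
  have hm1 : (m : ℂ) ≠ 1 := by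
    intro h
    have : m = 1 := by exact_mod_cast h
    omega
  have hm0 : (m : ℂ) ≠ 0 := by exact_mod_cast (by omega : m ≠ 0)
  have hL : DirichletCharacter.LFunction ψ⁻¹ m ≠ 0 := by
    refine DirichletCharacter.LFunction_ne_zero_of_one_le_re ψ⁻¹ (Or.inr hm1) ?_
    simp only [natCast_re]
    exact_mod_cast (by omega : 1 ≤ m)
  rw [DirichletCharacter.LFunction_eq_completed_div_gammaFactor _ _ (Or.inl hm0)] at hL
  have hΛ : DirichletCharacter.completedLFunction ψ⁻¹ m ≠ 0 := fun h => hL (by rw [h, zero_div])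
  have hfe := hψ'.completedLFunction_one_sub (1 - (m : ℂ))
  rw [inv_inv, sub_sub_cancel] at hfe
  rw [hfe] at hΛ
  have h1 : (1 : ℂ) - m ≠ 0 := sub_ne_zero.2 (Ne.symm hm1)
  rw [DirichletCharacter.LFunction_eq_completed_div_gammaFactor _ _ (Or.inl h1)]
  refine div_ne_zero (right_ne_zero_of_mul hΛ) ?_
  rcases Nat.even_or_odd m with he | ho
  · have hev : ψ.Even := by
      rw [DirichletCharacter.Even, hpar, he.neg_one_pow]
    rw [hev.gammaFactor_def, Ne, Gammaℝ_eq_zero_iff]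
    rintro ⟨n, hn⟩
    obtain ⟨k, rfl⟩ := he
    have h2 : ((2 * k : ℤ) : ℂ) = ((2 * n + 1 : ℤ) : ℂ) := by
      push_cast at hn ⊢
      linear_combination -hn
    have h3 : (2 * k : ℤ) = 2 * n + 1 := by exact_mod_cast h2
    omega
  · have hod : ψ.Odd := by
      rw [DirichletCharacter.Odd, hpar, ho.neg_one_pow]
    rw [hod.gammaFactor_def, Ne, Gammaℝ_eq_zero_iff]
    rintro ⟨n, hn⟩
    obtain ⟨k, rfl⟩ := ho
    have h2 : ((2 * k : ℤ) : ℂ) = ((2 * n + 1 : ℤ) : ℂ) := by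
      push_cast at hn ⊢
      linear_combination -hn
    have h3 : (2 * k : ℤ) = 2 * n + 1 := by exact_mod_cast h2
    omega

lemma bsum_one_ne_zero {f : ℕ} [NeZero f] (ψ : DirichletCharacter ℂ f)
    (hψ : ψ.IsPrimitive) (hpar : ψ (-1) = -1) : bsum 1 ψ ≠ 0 := by
  intro h0
  have hodd : (ψ⁻¹).Odd := by
    rw [DirichletCharacter.Odd, MulChar.inv_apply_eq_inv', hpar]
    norm_num
  have hψ' : ψ⁻¹.IsPrimitive := by
    rw [DirichletCharacter.isPrimitive_def] at hψ ⊢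
    rwa [DirichletCharacter.conductor_inv]
  have hψ1 : ψ ≠ 1 := by
    intro h
    rw [h, MulChar.one_apply (by simp : IsUnit (-1 : ZMod f))] at hpar
    norm_num at hpar
  have hf1 : f ≠ 1 := by
    rintro rfl
    exact hψ1 (DirichletCharacter.level_one ψ)
  have key := Pool.Agent.TH10.RP.JC.dft_saw_ne_zero ψ⁻¹ hodd
  apply key
  have hf : (f : ℂ) ≠ 0 := Nat.cast_ne_zero.2 (NeZero.ne f)
  have h1 : ∀ j : ZMod f, ψ j * (Pool.Agent.H916R2.saw j : ℂ) =
      2 * f * (ψ j * (((Polynomial.bernoulli 1).eval ((j.val : ℚ) / f) : ℚ) : ℂ)) := by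
    intro j
    by_cases hj : j = 0
    · subst hj
      rw [DirichletCharacter.map_zero' ψ hf1]
      simp
    · unfold Pool.Agent.H916R2.saw
      rw [if_neg hj, Polynomial.bernoulli_one]
      simp only [Polynomial.eval_sub, Polynomial.eval_X, Polynomial.eval_C]
      push_cast
      field_simp
  have h2 : ∑ j : ZMod f, ψ j * (Pool.Agent.H916R2.saw j : ℂ) = 0 := by
    rw [Finset.sum_congr rfl fun j _ => h1 j, ← mul_sum]
    unfold bsum at h0
    rw [h0, mul_zero]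
  have h3 : ∀ j : ZMod f, ZMod.dft (fun j => ψ⁻¹ j) j * (Pool.Agent.H916R2.saw j : ℂ) =
      (-gaussSum ψ⁻¹ ZMod.stdAddChar) * (ψ j * (Pool.Agent.H916R2.saw j : ℂ)) := by
    intro j
    have h4 := hψ'.fourierTransform_eq_inv_mul_gaussSum j
    rw [inv_inv] at h4
    have h5 : ψ (-j) = - ψ j := by
      rw [← neg_one_mul, map_mul, hpar, neg_one_mul]
    rw [h5] at h4
    have h6 : ZMod.dft (fun j => ψ⁻¹ j) j = -ψ j * gaussSum ψ⁻¹ ZMod.stdAddChar := h4
    rw [h6]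
    ring
  rw [Finset.sum_congr rfl fun j _ => h3 j, ← mul_sum, h2, mul_zero]

theorem bsum_ne_zero {m f : ℕ} [NeZero f] (hm : 1 ≤ m) (ψ : DirichletCharacter ℂ f)
    (hψ : ψ.IsPrimitive) (hpar : ψ (-1) = (-1) ^ m) : bsum m ψ ≠ 0 := by
  rcases Nat.lt_or_ge 1 m with h | h
  · intro h0
    apply L_neg_ne_zero h ψ hψ hpar
    rw [L_neg h, h0, mul_zero, mul_zero]
  · have : m = 1 := by omega
    subst this
    exact bsum_one_ne_zero ψ hψ (by rw [hpar, pow_one])

end Pool.Agent.H424.GA
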