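import Mathlib
import Pool.Agent.Y18.GX.Bern
import Pool.Agent.H424.GA.Nonvan
import Pool.Agent.H424.GA.Descent

/-!
# Integral multiples of the generalized Bernoulli numbers and their size
-/

set_option autoImplicit false

namespace Pool.Agent.H424.GA

open Finset

/-- `f^m (m+1)! B_m(a/f)` is an integer -/
lemma val_int (m f a : ℕ) (hf : f ≠ 0) : ∃ z : ℤ,
    (f : ℚ) ^ m * ((m + 1).factorial : ℚ) * (Polynomial.bernoulli m).eval ((a : ℚ) / f) = z := by
  have hf' : (f : ℚ) ≠ 0 := by exact_mod_cast hf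
  choose z hz using fun i => Pool.Agent.Y18.GX.bern_int i
  have hw : ∀ i, ∃ w : ℕ, i < m + 1 → (m + 1).factorial = (i + 1).factorial * w := by
    intro i
    by_cases hi : i < m + 1
    · obtain ⟨w, hw⟩ := Nat.factorial_dvd_factorial (show i + 1 ≤ m + 1 by omega)
      exact ⟨w, fun _ => hw⟩
    · exact ⟨0, fun h => absurd h hi⟩
  choose w hw using hw
  refine ⟨∑ i ∈ range (m + 1), z i * w i * (m.choose i) * f ^ i * a ^ (m - i), ?_⟩
  rw [Polynomial.bernoulli, Polynomial.eval_finsetSum, Finset.mul_sum]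
  push_cast
  refine Finset.sum_congr rfl fun i hi => ?_
  have hi' := mem_range.1 hi
  rw [Polynomial.eval_monomial, hw i hi', ← hz i, div_pow]
  have h1 : (f : ℚ) ^ m = f ^ i * f ^ (m - i) := by rw [← pow_add]; congr 1; omega
  rw [h1]
  push_cast
  field_simp

/-- the integer `f^m (m+1)! B_m(a/f)` -/
noncomputable def cc (m f a : ℕ) : ℤ :=
  ((f : ℚ) ^ m * ((m + 1).factorial : ℚ) * (Polynomial.bernoulli m).eval ((a : ℚ) / f)).num

lemma cc_spec (m f a : ℕ) (hf : f ≠ 0) : (cc m f a : ℚ) =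
    (f : ℚ) ^ m * ((m + 1).factorial : ℚ) * (Polynomial.bernoulli m).eval ((a : ℚ) / f) := by
  obtain ⟨z, hz⟩ := val_int m f a hf
  unfold cc
  rw [hz]
  simp

/-- `|B_m(x)| ≤ m!` on the unit interval -/
lemma bern_le (m : ℕ) : ∀ x ∈ Set.Icc (0 : ℝ) 1, |bernoulliFun m x| ≤ (m.factorial : ℝ) := by
  induction m with
  | zero => intro x _; simp
  | succ k ih =>
    intro x hx
    have hL : ∀ y ∈ Set.Icc (0 : ℝ) 1, |bernoulliFun (k + 1) x - bernoulliFun (k + 1) y| ≤
        ((k + 1).factorial : ℝ) := by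
      intro y hy
      have h1 := Convex.norm_image_sub_le_of_norm_hasDerivWithin_le (f := bernoulliFun (k + 1))
        (f' := fun t => ((k + 1 : ℕ) : ℝ) * bernoulliFun (k + 1 - 1) t) (C := ((k + 1).factorial : ℝ))
        (s := Set.Icc (0 : ℝ) 1) (fun t _ => (hasDerivAt_bernoulliFun (k + 1) t).hasDerivWithinAt)
        (fun t ht => by
          rw [Nat.add_sub_cancel, norm_mul, Real.norm_eq_abs, Real.norm_eq_abs, Nat.factorial_succ,
            abs_of_nonneg (Nat.cast_nonneg _)]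
          push_cast
          exact mul_le_mul_of_nonneg_left (ih t ht) (by positivity))
        (convex_Icc 0 1) hy hx
      rw [Real.norm_eq_abs, Real.norm_eq_abs] at h1
      refine h1.trans ?_
      have h2 : |x - y| ≤ 1 := by
        rw [abs_le]
        constructor <;> linarith [hx.1, hx.2, hy.1, hy.2]
      have h3 : (0 : ℝ) ≤ ((k + 1).factorial : ℝ) := Nat.cast_nonneg _
      nlinarith
    have h0 := integral_bernoulliFun_eq_zero (Nat.succ_ne_zero k)
    have h1 : bernoulliFun (k + 1) x = ∫ y in (0 : ℝ)..1, (bernoulliFun (k + 1) x - bernoulliFun (k + 1) y) := by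
      rw [intervalIntegral.integral_sub (by simp) (intervalIntegrable_bernoulliFun _ _ _)]
      simp only [Nat.succ_eq_add_one] at h0
      rw [h0]
      simp
    rw [h1]
    have h2 := intervalIntegral.norm_integral_le_of_norm_le_const
      (f := fun y => bernoulliFun (k + 1) x - bernoulliFun (k + 1) y) (a := 0) (b := 1)
      (C := ((k + 1).factorial : ℝ)) (fun y hy => by
        rw [Set.uIoc_of_le zero_le_one] at hy
        exact hL y ⟨hy.1.le, hy.2⟩)
    simpa using h2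

lemma cc_le (m f a : ℕ) (hf : f ≠ 0) (ha : a ≤ f) :
    |(cc m f a : ℝ)| ≤ (f : ℝ) ^ m * ((m + 1).factorial : ℝ) * (m.factorial : ℝ) := by
  have h1 : (cc m f a : ℝ) = (f : ℝ) ^ m * ((m + 1).factorial : ℝ) * bernoulliFun m ((a : ℝ) / f) := by
    have h2 : ((cc m f a : ℚ) : ℝ) = ((f : ℚ) ^ m * ((m + 1).factorial : ℚ) *
      (Polynomial.bernoulli m).eval ((a : ℚ) / f) : ℚ) := by rw [cc_spec m f a hf]
    have h3 : bernoulliFun m ((a : ℝ) / f) = (((Polynomial.bernoulli m).eval ((a : ℚ) / f) : ℚ) : ℝ) := by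
      unfold bernoulliFun
      rw [Polynomial.eval_map]
      have h4 : ((a : ℝ) / f) = algebraMap ℚ ℝ ((a : ℚ) / f) := by simp
      rw [h4, Polynomial.eval₂_at_apply]
      rfl
    rw [h3]
    rw [Rat.cast_intCast] at h2
    rw [h2]
    push_cast
    ring
  rw [h1, abs_mul, abs_of_nonneg (by positivity)]
  refine mul_le_mul_of_nonneg_left (bern_le m _ ?_) (by positivity)
  have hf' : (0 : ℝ) < f := by exact_mod_cast Nat.pos_of_ne_zero hf
  constructor
  · positivity
  · rw [div_le_one hf']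
    exact_mod_cast ha

section
variable {f : ℕ} [NeZero f]

/-- the algebraic integer `f^m (m+1)! ∑ ψ(x) B_m(x/f)` -/
noncomputable def al (m : ℕ) (ψ : DirichletCharacter ℂ f) : ℂ := ∑ j : ZMod f, ψ j * (cc m f j.val : ℂ)

lemma al_eq (m : ℕ) (ψ : DirichletCharacter ℂ f) :
    al m ψ = (f : ℂ) ^ m * ((m + 1).factorial : ℂ) * bsum m ψ := by
  unfold al bsum
  rw [mul_sum]
  refine Finset.sum_congr rfl fun j _ => ?_
  have h2 : ((cc m f j.val : ℚ) : ℂ) = ((f : ℚ) ^ m * ((m + 1).factorial : ℚ) *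
      (Polynomial.bernoulli m).eval ((j.val : ℚ) / f) : ℚ) := by rw [cc_spec m f _ (NeZero.ne f)]
  rw [Rat.cast_intCast] at h2
  rw [h2]
  push_cast
  ring

lemma al_ne_zero {m : ℕ} (hm : 1 ≤ m) {ψ : DirichletCharacter ℂ f} (h : ψ ∈ AA f m) : al m ψ ≠ 0 := by
  rw [mem_AA] at h
  rw [al_eq]
  have hf : (f : ℂ) ≠ 0 := Nat.cast_ne_zero.2 (NeZero.ne f)
  have h2 : ((m + 1).factorial : ℂ) ≠ 0 := Nat.cast_ne_zero.2 (Nat.factorial_ne_zero _)
  exact mul_ne_zero (mul_ne_zero (pow_ne_zero _ hf) h2) (bsum_ne_zero hm ψ h.1 h.2)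

lemma al_int (m : ℕ) (ψ : DirichletCharacter ℂ f) : IsIntegral ℤ (al m ψ) := by
  refine IsIntegral.sum _ fun j _ => IsIntegral.mul ?_ ?_
  · by_cases hj : IsUnit j
    · obtain ⟨U, rfl⟩ := hj
      have h1 : ψ (U : ZMod f) ^ f.totient = 1 := by
        rw [← map_pow, ← Units.val_pow_eq_pow_val, ZMod.pow_totient, Units.val_one, map_one]
      exact IsIntegral.of_pow (NeZero.pos f.totient) (by rw [h1]; exact isIntegral_one)
    · rw [ψ.map_nonunit hj]
      exact isIntegral_zero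
  · exact isIntegral_algebraMap (R := ℤ) (x := cc m f j.val)

lemma al_norm {m : ℕ} (hm : 1 ≤ m) (ψ : DirichletCharacter ℂ f) :
    ‖al m ψ‖ ≤ ((2 * f * m : ℕ) : ℝ) ^ (2 * m) := by
  have h1 : ‖al m ψ‖ ≤ ∑ j : ZMod f, ((f : ℝ) ^ m * ((m + 1).factorial : ℝ) * (m.factorial : ℝ)) := by
    refine (norm_sum_le _ _).trans (Finset.sum_le_sum fun j _ => ?_)
    rw [norm_mul]
    have h2 : ‖ψ j‖ ≤ 1 := DirichletCharacter.norm_le_one ψ j
    have h3 : ‖(cc m f j.val : ℂ)‖ = |(cc m f j.val : ℝ)| := Complex.norm_intCast _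
    rw [h3]
    have h4 := cc_le m f j.val (NeZero.ne f) (ZMod.val_lt j).le
    have h5 := abs_nonneg (cc m f j.val : ℝ)
    nlinarith [norm_nonneg (ψ j)]
  refine h1.trans ?_
  rw [Finset.sum_const, Finset.card_univ, ZMod.card, nsmul_eq_mul]
  have hN : f * (f ^ m * (m + 1).factorial * m.factorial) ≤ (2 * f * m) ^ (2 * m) := by
    have e1 : f * f ^ m ≤ f ^ (2 * m) := by
      rw [← pow_succ']
      exact Nat.pow_le_pow_right (NeZero.pos f) (by omega)
    have e2 : m + 1 ≤ 2 ^ (2 * m) := by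
      have : 2 * m < 2 ^ (2 * m) := Nat.lt_two_pow_self
      omega
    have e3 : m.factorial * m.factorial ≤ m ^ (2 * m) := by
      rw [two_mul, pow_add]
      exact Nat.mul_le_mul (Nat.factorial_le_pow m) (Nat.factorial_le_pow m)
    calc f * (f ^ m * (m + 1).factorial * m.factorial)
        = (f * f ^ m) * ((m + 1) * (m.factorial * m.factorial)) := by
          rw [Nat.factorial_succ]; ring
      _ ≤ f ^ (2 * m) * (2 ^ (2 * m) * m ^ (2 * m)) :=
          Nat.mul_le_mul e1 (Nat.mul_le_mul e2 e3)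
      _ = (2 * f * m) ^ (2 * m) := by rw [mul_pow, mul_pow]; ring
  exact_mod_cast hN

lemma card_AA (m : ℕ) : (AA f m).card ≤ f := by
  have h1 : Nat.card (DirichletCharacter ℂ f) = f.totient := by
    have := MulChar.card_eq_card_units_of_hasEnoughRootsOfUnity (ZMod f) ℂ
    rw [this, Nat.card_eq_fintype_card, ZMod.card_units_eq_totient]
  have : Fintype (DirichletCharacter ℂ f) := Fintype.ofFinite _
  have h2 := Finset.card_le_univ (AA f m)
  rw [← Nat.card_eq_fintype_card, h1] at h2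
  exact h2.trans (Nat.totient_le f)

/-- the product over the primitive characters of the parity of `m` -/
theorem exists_P {m : ℕ} (hm : 1 ≤ m) (f : ℕ) [NeZero f] : ∃ P : ℤ, (P : ℂ) = ∏ ψ ∈ AA f m, al m ψ ∧ P ≠ 0 ∧
    |(P : ℝ)| ≤ ((2 * f * m : ℕ) : ℝ) ^ (2 * m * f) := by
  obtain ⟨P, hP⟩ := prod_int (f := f) m (fun j => cc m f j.val)
  have hP' : (P : ℂ) = ∏ ψ ∈ AA f m, al m ψ := by
    rw [← hP]
    rfl
  refine ⟨P, hP', ?_, ?_⟩
  · intro h
    rw [h, Int.cast_zero] at hP'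
    obtain ⟨ψ, hψ, h0⟩ := Finset.prod_eq_zero_iff.1 hP'.symm
    exact al_ne_zero hm hψ h0
  · have h1 : |(P : ℝ)| = ‖(P : ℂ)‖ := (Complex.norm_intCast _).symm
    rw [h1, hP', norm_prod]
    have h2 : ∏ ψ ∈ AA f m, ‖al m ψ‖ ≤ ∏ ψ ∈ AA f m, ((2 * f * m : ℕ) : ℝ) ^ (2 * m) :=
      Finset.prod_le_prod (fun ψ _ => norm_nonneg _) (fun ψ _ => al_norm hm ψ)
    refine h2.trans ?_
    rw [Finset.prod_const, ← pow_mul]
    have h3 : 1 ≤ 2 * f * m := Nat.mul_pos (Nat.mul_pos two_pos (NeZero.pos f)) hm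
    refine pow_le_pow_right₀ (by exact_mod_cast h3) ?_
    exact Nat.mul_le_mul_left _ (card_AA m)

end

end Pool.Agent.H424.GA
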