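import Mathlib
import Pool.Agent.Y18.GX.Red
import Pool.Agent.H424.GA.Size

/-!
# Places above `p` and the product over the primitive characters
-/

set_option autoImplicit false

namespace Pool.Agent.H424.GA

open Finset NumberField

lemma mem_of_int (B : ValuationSubring ℂ) {z : ℂ} (h : IsIntegral ℤ z) : z ∈ B := by
  have h1 : IsIntegral B z := h.tower_top
  obtain ⟨y, hy⟩ := IsIntegrallyClosed.isIntegral_iff.mp h1
  rw [← hy]
  exact y.2

section
variable {f : ℕ} [NeZero f]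

/-- the ring of integers is contained in every valuation ring -/
noncomputable def toB (f : ℕ) [NeZero f] (B : ValuationSubring ℂ) : 𝓞 (LL f) →+* B :=
  ((algebraMap (LL f) ℂ).comp (algebraMap (𝓞 (LL f)) (LL f))).codRestrict B.toSubring (fun x => by
    have h1 : IsIntegral ℤ ((algebraMap (𝓞 (LL f)) (LL f)) x) := RingOfIntegers.isIntegral_coe x
    exact mem_of_int B (h1.map (Algebra.ofId ℤ ℂ |>.comp (AlgHom.id ℤ ℤ) |> fun _ =>
      (algebraMap (LL f) ℂ).toIntAlgHom)))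

lemma toB_coe (B : ValuationSubring ℂ) (x : 𝓞 (LL f)) : ((toB f B x : B) : ℂ) = ((x : LL f) : ℂ) := rfl

theorem e_one {p : ℕ} (hp : p.Prime) (hpf : ¬ p ∣ f.totient) (B : ValuationSubring ℂ)
    (hB : B.valuation (p : ℂ) < 1) (x : LL f) (hx : IsIntegral ℤ x) (hv : B.valuation (x : ℂ) < 1) :
    ((x : ℂ) / p) ∈ B := by
  have : Fact p.Prime := ⟨hp⟩
  set P : Ideal (𝓞 (LL f)) := Ideal.comap (toB f B) (IsLocalRing.maximalIdeal B) with hP
  have hPprime : P.IsPrime := Ideal.comap_isPrime _ _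
  have hmem : ∀ y : 𝓞 (LL f), y ∈ P ↔ B.valuation ((y : LL f) : ℂ) < 1 := by
    intro y
    rw [hP, Ideal.mem_comap, ← toB_coe, B.valuation_lt_one_iff]
  have hpP : ((p : ℕ) : 𝓞 (LL f)) ∈ P := by
    rw [hmem]
    have h1 : (((p : ℕ) : 𝓞 (LL f)) : LL f) = (p : LL f) := by simp
    rw [h1]
    simpa using hB
  have hover : P.LiesOver (Ideal.span {(p : ℤ)}) := by
    constructor
    have h1 : Ideal.span {(p : ℤ)} ≤ P.under ℤ := by
      rw [Ideal.span_singleton_le_iff_mem, Ideal.under_def, Ideal.mem_comap]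
      simpa using hpP
    have h2 : (Ideal.span {(p : ℤ)}).IsMaximal := by
      have hpr : Prime (p : ℤ) := Nat.prime_iff_prime_int.1 hp
      exact PrincipalIdealRing.isMaximal_of_irreducible hpr.irreducible
    exact h2.eq_of_le (Ideal.IsPrime.ne_top inferInstance) h1
  have he := IsCyclotomicExtension.Rat.ramificationIdx_eq_of_not_dvd (m := f.totient) p (LL f) P hpf
  set I : Ideal (𝓞 (LL f)) := (Ideal.span {(p : ℤ)}).map (algebraMap ℤ (𝓞 (LL f))) with hI
  have hIspan : I = Ideal.span {((p : ℕ) : 𝓞 (LL f))} := by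
    rw [hI, Ideal.map_span, Set.image_singleton]
    simp
  have hI0 : I ≠ ⊥ := by
    rw [hIspan, Ne, Ideal.span_singleton_eq_bot]
    exact_mod_cast hp.ne_zero
  rw [Ideal.IsDedekindDomain.ramificationIdx_eq_multiplicity (Ideal.span {(p : ℤ)}) P hI0] at he
  have hdvd : P ∣ I := by
    rw [Ideal.dvd_iff_le, hIspan, Ideal.span_singleton_le_iff_mem]
    exact hpP
  have hnot : ¬ P ^ 2 ∣ I := by
    intro h2
    have hfin : FiniteMultiplicity P I := by
      refine FiniteMultiplicity.of_not_isUnit ?_ hI0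
      rw [Ideal.isUnit_iff]
      exact hPprime.ne_top
    have h3 := hfin.le_multiplicity_of_pow_dvd h2
    rw [he] at h3
    omega
  obtain ⟨𝔞, h𝔞⟩ := hdvd
  obtain ⟨a, ha, haP⟩ : ∃ a ∈ 𝔞, a ∉ P := by
    by_contra hcon
    push Not at hcon
    apply hnot
    rw [Ideal.dvd_iff_le, h𝔞, pow_two]
    exact Ideal.mul_mono_right (fun a ha => hcon a ha)
  set x' : 𝓞 (LL f) := ⟨x, hx⟩ with hx'
  have hx'P : x' ∈ P := by
    rw [hmem]
    exact hv
  have h1 : x' * a ∈ I := by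
    rw [h𝔞]
    exact Ideal.mul_mem_mul hx'P ha
  rw [hIspan, Ideal.mem_span_singleton] at h1
  obtain ⟨y, hy⟩ := h1
  have hy2 : (x : ℂ) * ((a : LL f) : ℂ) = (p : ℂ) * ((y : LL f) : ℂ) := by
    have h2 := congrArg (fun z : 𝓞 (LL f) => ((z : LL f) : ℂ)) hy
    have e1 : (((x' * a : 𝓞 (LL f)) : LL f) : ℂ) = (x : ℂ) * ((a : LL f) : ℂ) := rfl
    have e2 : (((((p : ℕ) : 𝓞 (LL f)) * y : 𝓞 (LL f)) : LL f) : ℂ) = (p : ℂ) * ((y : LL f) : ℂ) := by
      have e3 : (((((p : ℕ) : 𝓞 (LL f)) * y : 𝓞 (LL f)) : LL f) : ℂ) =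
        ((((p : ℕ) : 𝓞 (LL f)) : LL f) : ℂ) * ((y : LL f) : ℂ) := rfl
      rw [e3]
      simp
    rw [← e1, ← e2]
    exact h2
  have hva : B.valuation ((a : LL f) : ℂ) = 1 := by
    refine le_antisymm ?_ (not_lt.1 (fun h => haP ((hmem a).2 h)))
    have := (toB f B a).2
    exact (B.valuation_le_one_iff _).2 this
  have ha0 : ((a : LL f) : ℂ) ≠ 0 := by
    intro h0
    rw [h0, map_zero] at hva
    exact zero_ne_one hva
  have hp0 : (p : ℂ) ≠ 0 := by exact_mod_cast hp.ne_zero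
  have hq : (x : ℂ) / p = ((y : LL f) : ℂ) / ((a : LL f) : ℂ) := by
    field_simp
    rw [hy2]
  rw [hq, ← B.valuation_le_one_iff, map_div₀, hva, div_one, B.valuation_le_one_iff]
  exact (toB f B y).2

/-- the element of the field -/
lemma al_mem (m : ℕ) (ψ : DirichletCharacter ℂ f) : ∃ x : LL f, IsIntegral ℤ x ∧ (x : ℂ) = al m ψ := by
  have h : ∃ x : LL f, (x : ℂ) = al m ψ := by
    refine ⟨∑ j : ZMod f, chL ψ j * (cc m f j.val : LL f), ?_⟩
    have h1 : (((∑ j : ZMod f, chL ψ j * (cc m f j.val : LL f) : LL f)) : ℂ) =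
        algebraMap (LL f) ℂ (∑ j : ZMod f, chL ψ j * (cc m f j.val : LL f)) := rfl
    rw [h1, map_sum]
    refine Finset.sum_congr rfl fun j _ => ?_
    rw [map_mul, map_intCast]
    rfl
  obtain ⟨x, hx⟩ := h
  refine ⟨x, ?_, hx⟩
  have h1 := al_int m ψ
  rw [← hx] at h1
  exact (isIntegral_algebraMap_iff (algebraMap (LL f) ℂ).injective).1 h1

lemma dvd_of_val {p : ℕ} (hp : p.Prime) (B : ValuationSubring ℂ) (hB : B.valuation (p : ℂ) < 1)
    {P : ℤ} (hP : P ≠ 0) {b : ℕ} (h : (P : ℂ) / (p : ℂ) ^ b ∈ B) : (p : ℤ) ^ b ∣ P := by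
  have hp0 : (p : ℂ) ≠ 0 := by exact_mod_cast hp.ne_zero
  obtain ⟨u, hPu, hu⟩ := (FiniteMultiplicity.of_prime_left (Nat.prime_iff_prime_int.1 hp)
    hP).exists_eq_pow_mul_and_not_dvd
  set v := multiplicity (p : ℤ) P with hv
  rcases Nat.lt_or_ge v b with hvb | hvb
  · exfalso
    have hvu : B.valuation (u : ℂ) = 1 := by
      have h1 : ¬ p ∣ u.natAbs := by
        intro h2
        exact hu (Int.natCast_dvd.2 h2)
      have h2 := Pool.Agent.Y18.GX.nat_val hp hB h1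
      rcases Int.natAbs_eq u with h3 | h3
      · have h4 : (u : ℂ) = ((u.natAbs : ℕ) : ℂ) := by
          rw [← Int.cast_natCast]
          exact congrArg _ h3
        rw [h4, h2]
      · have h4 : (u : ℂ) = -((u.natAbs : ℕ) : ℂ) := by
          rw [← Int.cast_natCast, ← Int.cast_neg]
          exact congrArg _ h3
        rw [h4, Valuation.map_neg, h2]
    have h1 : (P : ℂ) / (p : ℂ) ^ b = (u : ℂ) / (p : ℂ) ^ (b - v) := by
      have h3 : (p : ℂ) ^ b = (p : ℂ) ^ v * (p : ℂ) ^ (b - v) := by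
        rw [← pow_add]
        congr 1
        omega
      rw [h3, hPu]
      push_cast
      field_simp
    rw [h1, ← B.valuation_le_one_iff, map_div₀, hvu, map_pow] at h
    have hvp0 : B.valuation (p : ℂ) ≠ 0 := (Valuation.ne_zero_iff _).2 hp0
    have h2 : B.valuation (p : ℂ) ^ (b - v) < 1 := pow_lt_one₀ zero_le hB (by omega)
    have h3 : 0 < B.valuation (p : ℂ) ^ (b - v) := pow_pos (zero_lt_iff.2 hvp0) _
    rw [div_le_one₀ h3] at h
    exact absurd h2 (not_lt.2 h)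
  · rw [hPu]
    exact (pow_dvd_pow _ hvb).mul_right _

theorem pow_dvd {m p : ℕ} (hp : p.Prime) (hpf : ¬ p ∣ f.totient) (B : ValuationSubring ℂ)
    (hB : B.valuation (p : ℂ) < 1) {P : ℤ} (hP : (P : ℂ) = ∏ ψ ∈ AA f m, al m ψ) (hP0 : P ≠ 0) :
    (p : ℤ) ^ {ψ ∈ AA f m | B.valuation (al m ψ) ≠ 1}.card ∣ P := by
  classical
  apply dvd_of_val hp B hB hP0
  rw [hP, ← Finset.prod_filter_mul_prod_filter_not (AA f m) (fun ψ => B.valuation (al m ψ) ≠ 1),
    mul_div_right_comm, ← Finset.prod_const, ← Finset.prod_div_distrib]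
  refine mul_mem (prod_mem fun ψ hψ => ?_) (prod_mem fun ψ _ => mem_of_int B (al_int m ψ))
  rw [Finset.mem_filter] at hψ
  obtain ⟨x, hx, hxal⟩ := al_mem m ψ
  rw [← hxal]
  refine e_one hp hpf B hB x hx ?_
  rw [hxal]
  have h1 : B.valuation (al m ψ) ≤ 1 := (B.valuation_le_one_iff _).2 (mem_of_int B (al_int m ψ))
  exact lt_of_le_of_ne h1 hψ.2

end

end Pool.Agent.H424.GA
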