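import Mathlib
import Pool.Agent.H424.GA.Places

/-!
# The integers `nuF f m` and their prime factors
-/

set_option autoImplicit false

namespace Pool.Agent.H424.GA

open Finset

open Classical in
/-- the absolute value of the product of the algebraic integers `al m ψ` over the primitive characters
modulo `f` of the parity of `m` -/
noncomputable def nuF (f m : ℕ) : ℕ :=
  if h : f ≠ 0 ∧ 1 ≤ m then
    (@exists_P m h.2 f ⟨h.1⟩).choose.natAbs
  else 1

lemma nuF_ne_zero (f m : ℕ) : nuF f m ≠ 0 := by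
  unfold nuF
  split_ifs with h
  · have := (@exists_P m h.2 f ⟨h.1⟩).choose_spec.2.1
    exact Int.natAbs_ne_zero.2 this
  · exact one_ne_zero

lemma log_nuF_le {f m : ℕ} (hf : 1 ≤ f) (hm : 1 ≤ m) :
    Real.log (nuF f m) ≤ 2 * (f * m : ℕ) * Real.log (2 * (f * m : ℕ)) := by
  have h : f ≠ 0 ∧ 1 ≤ m := ⟨by omega, hm⟩
  have h1 := (@exists_P m h.2 f ⟨h.1⟩).choose_spec.2.2
  have h2 : (nuF f m : ℝ) ≤ ((2 * f * m : ℕ) : ℝ) ^ (2 * m * f) := by
    unfold nuF
    rw [dif_pos h]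
    have h3 : (((@exists_P m h.2 f ⟨h.1⟩).choose.natAbs : ℕ) : ℝ) =
        |((@exists_P m h.2 f ⟨h.1⟩).choose : ℝ)| := by
      rw [← Int.cast_abs, Nat.cast_natAbs]
    rw [h3]
    exact h1
  have h0 : (0 : ℝ) < nuF f m := by exact_mod_cast Nat.pos_of_ne_zero (nuF_ne_zero f m)
  have h3 := Real.log_le_log h0 h2
  rw [Real.log_pow] at h3
  refine h3.trans (le_of_eq ?_)
  push_cast
  have e : (2 * (f : ℝ) * m) = 2 * (f * m) := by ring
  rw [e]
  ring

theorem pow_dvd_nuF {f m p : ℕ} [NeZero f] (hm : 1 ≤ m) (hp : p.Prime) (hpf : ¬ p ∣ f.totient)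
    (B : ValuationSubring ℂ) (hB : B.valuation (p : ℂ) < 1) :
    p ^ {ψ ∈ AA f m | B.valuation (al m ψ) ≠ 1}.card ∣ nuF f m := by
  have h : f ≠ 0 ∧ 1 ≤ m := ⟨NeZero.ne f, hm⟩
  have h1 := (@exists_P m h.2 f ⟨h.1⟩).choose_spec
  have h2 := pow_dvd hp hpf B hB h1.1 h1.2.1
  unfold nuF
  rw [dif_pos h]
  have h3 := Int.natAbs_dvd_natAbs.2 h2
  rw [Int.natAbs_pow, Int.natAbs_natCast] at h3
  exact h3

theorem val_of_not_dvd {f m p : ℕ} [NeZero f] (hm : 1 ≤ m) (hp : p.Prime) (hd : ¬ p ∣ nuF f m)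
    (B : ValuationSubring ℂ) (hB : B.valuation (p : ℂ) < 1) {ψ : DirichletCharacter ℂ f} (hψ : ψ ∈ AA f m) :
    B.valuation (al m ψ) = 1 := by
  have h : f ≠ 0 ∧ 1 ≤ m := ⟨NeZero.ne f, hm⟩
  obtain ⟨h1, h2, -⟩ := (@exists_P m h.2 f ⟨h.1⟩).choose_spec
  set P := (@exists_P m h.2 f ⟨h.1⟩).choose with hP
  have hd' : ¬ p ∣ P.natAbs := by
    unfold nuF at hd
    rw [dif_pos h] at hd
    exact hd
  have hvP : B.valuation (P : ℂ) = 1 := by
    have h3 := Pool.Agent.Y18.GX.nat_val hp hB hd'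
    rcases Int.natAbs_eq P with h4 | h4
    · have h5 : (P : ℂ) = ((P.natAbs : ℕ) : ℂ) := by
        rw [← Int.cast_natCast]
        exact congrArg _ h4
      rw [h5, h3]
    · have h5 : (P : ℂ) = -((P.natAbs : ℕ) : ℂ) := by
        rw [← Int.cast_natCast, ← Int.cast_neg]
        exact congrArg _ h4
      rw [h5, Valuation.map_neg, h3]
  have hle : ∀ φ : DirichletCharacter ℂ f, B.valuation (al m φ) ≤ 1 := fun φ =>
    (B.valuation_le_one_iff _).2 (mem_of_int B (al_int m φ))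
  classical
  rw [h1, map_prod, ← Finset.mul_prod_erase _ _ hψ] at hvP
  have h6 : ∏ φ ∈ (AA f m).erase ψ, B.valuation (al m φ) ≤ 1 := Finset.prod_le_one' fun φ _ => hle φ
  refine le_antisymm (hle ψ) ?_
  calc (1 : B.ValueGroup) = B.valuation (al m ψ) * ∏ φ ∈ (AA f m).erase ψ, B.valuation (al m φ) := hvP.symm
    _ ≤ B.valuation (al m ψ) * 1 := mul_le_mul' le_rfl h6
    _ = B.valuation (al m ψ) := mul_one _

/-- a sum over primes of the exponents of a number -/
lemma sum_fact_le (S : Finset ℕ) (hS : ∀ p ∈ S, p.Prime) (Y : ℝ) (hY : 1 ≤ Y) (hY' : ∀ p ∈ S, Y ≤ p)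
    {n : ℕ} (hn : n ≠ 0) : (∑ p ∈ S, (n.factorization p : ℝ)) * Real.log Y ≤ Real.log n := by
  have hlogY : 0 ≤ Real.log Y := Real.log_nonneg hY
  have h1 : ∏ p ∈ S, p ^ n.factorization p ∣ n := by
    conv_rhs => rw [← Nat.prod_factorization_pow_eq_self hn]
    rw [Finsupp.prod]
    have h2 : ∏ p ∈ S, p ^ n.factorization p = ∏ p ∈ S.filter (fun p => p ∈ n.factorization.support),
        p ^ n.factorization p := by
      rw [Finset.prod_filter_of_ne]
      intro p _ h3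
      rw [Finsupp.mem_support_iff]
      intro h4
      rw [h4, pow_zero] at h3
      exact h3 rfl
    rw [h2]
    apply Finset.prod_dvd_prod_of_subset
    intro p hp
    rw [mem_filter] at hp
    exact hp.2
  have h2 : ((∏ p ∈ S, p ^ n.factorization p : ℕ) : ℝ) ≤ n := by
    exact_mod_cast Nat.le_of_dvd (Nat.pos_of_ne_zero hn) h1
  have h3 : (0 : ℝ) < ((∏ p ∈ S, p ^ n.factorization p : ℕ) : ℝ) := by
    have : 0 < ∏ p ∈ S, p ^ n.factorization p :=
      Finset.prod_pos fun p hp => pow_pos (hS p hp).pos _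
    exact_mod_cast this
  have h4 := Real.log_le_log h3 h2
  rw [Nat.cast_prod, Real.log_prod (fun p hp => by
    push_cast
    have := (hS p hp).pos
    positivity)] at h4
  refine le_trans ?_ h4
  rw [Finset.sum_mul]
  refine Finset.sum_le_sum fun p hp => ?_
  rw [Nat.cast_pow, Real.log_pow]
  refine mul_le_mul_of_nonneg_left ?_ (Nat.cast_nonneg _)
  exact Real.log_le_log (by linarith) (hY' p hp)

/-- the total exponent of `p` in the numbers `nuF f m` with `f m ≤ W` -/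
noncomputable def VV (p W : ℕ) : ℕ := ∑ f ∈ Icc 1 W, ∑ m ∈ Icc 1 (W / f), (nuF f m).factorization p

lemma VV_mono (p : ℕ) {W W' : ℕ} (h : W ≤ W') : VV p W ≤ VV p W' := by
  unfold VV
  refine (Finset.sum_le_sum fun f _ => Finset.sum_le_sum_of_subset
    (Finset.Icc_subset_Icc_right (Nat.div_le_div_right h))).trans ?_
  exact Finset.sum_le_sum_of_subset (Finset.Icc_subset_Icc_right h)

lemma VV_pos {p W f m : ℕ} (hp : p.Prime) (hf : 1 ≤ f) (hm : 1 ≤ m) (hW : f * m ≤ W)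
    (hd : p ∣ nuF f m) : 1 ≤ VV p W := by
  have h1 : 1 ≤ (nuF f m).factorization p :=
    (hp.dvd_iff_one_le_factorization (nuF_ne_zero f m)).1 hd
  have hmf : m ≤ W / f := by
    rw [Nat.le_div_iff_mul_le (by omega), mul_comm]
    exact hW
  have hfW : f ≤ W := by
    calc f = f * 1 := (mul_one f).symm
      _ ≤ f * m := Nat.mul_le_mul_left _ hm
      _ ≤ W := hW
  unfold VV
  calc 1 ≤ (nuF f m).factorization p := h1
    _ ≤ ∑ m ∈ Icc 1 (W / f), (nuF f m).factorization p :=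
        Finset.single_le_sum (f := fun m => (nuF f m).factorization p) (fun _ _ => Nat.zero_le _)
          (mem_Icc.2 ⟨hm, hmf⟩)
    _ ≤ _ := Finset.single_le_sum (f := fun f => ∑ m ∈ Icc 1 (W / f), (nuF f m).factorization p)
          (fun _ _ => Nat.zero_le _) (mem_Icc.2 ⟨hf, hfW⟩)

/-- the first moment -/
theorem moment (S : Finset ℕ) (hS : ∀ p ∈ S, p.Prime) (Y : ℝ) (hY : 1 ≤ Y) (hY' : ∀ p ∈ S, Y ≤ p)
    (W : ℕ) (hW : 1 ≤ W) : (∑ p ∈ S, (VV p W : ℝ)) * Real.log Y ≤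
      2 * (W : ℝ) ^ 2 * Real.log (2 * W) * (1 + Real.log W) := by
  have hW0 : (0 : ℝ) < W := by exact_mod_cast hW
  have hlog : 0 ≤ Real.log (2 * W) := Real.log_nonneg (by
    have : (1 : ℝ) ≤ W := by exact_mod_cast hW
    linarith)
  have h1 : (∑ p ∈ S, (VV p W : ℝ)) * Real.log Y =
      ∑ f ∈ Icc 1 W, ∑ m ∈ Icc 1 (W / f), (∑ p ∈ S, ((nuF f m).factorization p : ℝ)) * Real.log Y := by
    unfold VV
    push_cast
    rw [Finset.sum_comm, Finset.sum_mul]
    refine Finset.sum_congr rfl fun f _ => ?_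
    rw [Finset.sum_comm, Finset.sum_mul]
  rw [h1]
  have h2 : ∀ f ∈ Icc 1 W, ∑ m ∈ Icc 1 (W / f), (∑ p ∈ S, ((nuF f m).factorization p : ℝ)) * Real.log Y ≤
      (W : ℝ) / f * (2 * W * Real.log (2 * W)) := by
    intro f hf
    rw [mem_Icc] at hf
    have h3 : ∀ m ∈ Icc 1 (W / f), (∑ p ∈ S, ((nuF f m).factorization p : ℝ)) * Real.log Y ≤
        2 * W * Real.log (2 * W) := by
      intro m hm
      rw [mem_Icc] at hm
      refine (sum_fact_le S hS Y hY hY' (nuF_ne_zero f m)).trans ((log_nuF_le hf.1 hm.1).trans ?_)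
      have h4 : f * m ≤ W := by
        calc f * m ≤ f * (W / f) := Nat.mul_le_mul_left _ hm.2
          _ ≤ W := Nat.mul_div_le W f
      have h5 : ((f * m : ℕ) : ℝ) ≤ W := by exact_mod_cast h4
      have h6 : (1 : ℝ) ≤ ((f * m : ℕ) : ℝ) := by exact_mod_cast Nat.mul_pos hf.1 hm.1
      have h7 : Real.log (2 * ((f * m : ℕ) : ℝ)) ≤ Real.log (2 * W) :=
        Real.log_le_log (by linarith) (by linarith)
      have h8 : 0 ≤ Real.log (2 * ((f * m : ℕ) : ℝ)) := Real.log_nonneg (by linarith)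
      exact mul_le_mul (by linarith) h7 h8 (by linarith)
    refine (Finset.sum_le_sum h3).trans ?_
    rw [Finset.sum_const, Nat.card_Icc, Nat.add_sub_cancel, nsmul_eq_mul]
    refine mul_le_mul_of_nonneg_right Nat.cast_div_le (by positivity)
  refine (Finset.sum_le_sum h2).trans ?_
  rw [← Finset.sum_mul]
  have h3 : ∑ f ∈ Icc 1 W, (W : ℝ) / f ≤ W * (1 + Real.log W) := by
    have h4 := harmonic_le_one_add_log W
    rw [harmonic_eq_sum_Icc] at h4
    push_cast at h4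
    have h5 : ∑ f ∈ Icc 1 W, (W : ℝ) / f = W * ∑ f ∈ Icc 1 W, ((f : ℝ))⁻¹ := by
      rw [Finset.mul_sum]
      refine Finset.sum_congr rfl fun f _ => by rw [div_eq_mul_inv]
    rw [h5]
    exact mul_le_mul_of_nonneg_left h4 hW0.le
  calc (∑ f ∈ Icc 1 W, (W : ℝ) / f) * (2 * W * Real.log (2 * W))
      ≤ (W * (1 + Real.log W)) * (2 * W * Real.log (2 * W)) :=
        mul_le_mul_of_nonneg_right h3 (by positivity)
    _ = _ := by ring

end Pool.Agent.H424.GA
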