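import Mathlib
import Pool.Agent.H424.GA.Few
import Pool.Agent.H424.GA.Nu

/-!
# For almost all primes the small generalized Bernoulli numbers are units
-/

set_option autoImplicit false

namespace Pool.Agent.H424.GA

open Finset Filter Topology

lemma large_logs (C : ℝ) : ∀ᶠ X : ℕ in atTop, C ≤ Real.log X :=
  (Real.tendsto_log_atTop.comp tendsto_natCast_atTop_atTop).eventually_ge_atTop C

lemma large_sqrt (C : ℝ) : ∀ᶠ X : ℕ in atTop, C ≤ √(X : ℝ) :=
  (Real.tendsto_sqrt_atTop.comp tendsto_natCast_atTop_atTop).eventually_ge_atTop C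

/-- the first part -/
theorem few_one (Φ : ℕ → ℝ) (hΦ : Tendsto Φ atTop atTop) :
    Few (fun p => ∀ f m : ℕ, 1 ≤ f → 1 ≤ m → Φ p * (((f * m : ℕ) : ℝ) * Real.log p) ^ 2 ≤ p →
      ¬ p ∣ nuF f m) := by
  intro ε hε
  set T : ℝ := max 1 (32 / ε) with hT
  have hT1 : 1 ≤ T := le_max_left _ _
  have hT2 : 32 / ε ≤ T := le_max_right _ _
  obtain ⟨P0, hP0⟩ := (tendsto_atTop.mp hΦ T).exists_forall_of_atTop
  filter_upwards [large_logs 2, large_sqrt (max P0 2)] with X hL2 hsq
  set G : ℕ → Prop := fun p => ∀ f m : ℕ, 1 ≤ f → 1 ≤ m →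
    Φ p * (((f * m : ℕ) : ℝ) * Real.log p) ^ 2 ≤ p → ¬ p ∣ nuF f m with hG
  set L : ℝ := Real.log X with hL
  have hX0 : (0 : ℝ) ≤ X := Nat.cast_nonneg X
  have hsq2 : (2 : ℝ) ≤ √(X : ℝ) := (le_max_right _ _).trans hsq
  have hX4 : (4 : ℝ) ≤ X := by
    have h1 := Real.sq_sqrt hX0
    nlinarith
  have hXpos : (0 : ℝ) < X := by linarith
  have hY1 : (1 : ℝ) ≤ √(X : ℝ) := by linarith
  have hlogY : Real.log √(X : ℝ) = L / 2 := Real.log_sqrt hX0
  set w : ℝ := 2 * √(X / T) / L with hw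
  have hw0 : 0 ≤ w := by positivity
  set W : ℕ := ⌊w⌋₊ with hW
  have hwsq : w ^ 2 = 4 * X / (T * L ^ 2) := by
    rw [hw, div_pow, mul_pow, Real.sq_sqrt (by positivity)]
    field_simp
    norm_num
  -- members of the exceptional set
  have hmem : ∀ p ∈ exc G X, 1 ≤ VV p W := by
    intro p hp
    rw [mem_exc] at hp
    obtain ⟨hpX, hpp, hpY, hbad⟩ := hp
    rw [hG] at hbad
    push Not at hbad
    obtain ⟨f, m, hf, hm, hle, hd⟩ := hbad
    have hpP0 : P0 ≤ p := by exact_mod_cast ((le_max_left _ _).trans hsq).trans hpY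
    have hΦp : T ≤ Φ p := hP0 p hpP0
    have hlogp : L / 2 ≤ Real.log p := by
      rw [← hlogY]
      exact Real.log_le_log (by linarith) hpY
    have hpX' : (p : ℝ) ≤ X := by exact_mod_cast hpX
    refine VV_pos hpp hf hm ?_ hd
    rw [hW]
    apply Nat.le_floor
    apply le_of_sq_le_sq _ hw0
    rw [hwsq, le_div_iff₀ (by positivity)]
    have h1 : (((f * m : ℕ) : ℝ) * (L / 2)) ^ 2 ≤ (((f * m : ℕ) : ℝ) * Real.log p) ^ 2 :=
      pow_le_pow_left₀ (by positivity) (mul_le_mul_of_nonneg_left hlogp (Nat.cast_nonneg _)) 2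
    have h2 : T * (((f * m : ℕ) : ℝ) * (L / 2)) ^ 2 ≤ Φ p * (((f * m : ℕ) : ℝ) * Real.log p) ^ 2 :=
      mul_le_mul hΦp h1 (by positivity) (by linarith)
    nlinarith
  rcases Nat.eq_zero_or_pos W with hW0 | hW0
  · -- there are no exceptions
    have hempty : exc G X = ∅ := by
      rw [Finset.eq_empty_iff_forall_notMem]
      intro p hp
      have h1 := hmem p hp
      rw [hW0] at h1
      simp [VV] at h1
    rw [hempty, Finset.card_empty, Nat.cast_zero]
    positivity
  · have hW1 : (1 : ℝ) ≤ W := by exact_mod_cast hW0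
    have hWw : (W : ℝ) ≤ w := Nat.floor_le hw0
    have hWsq : (W : ℝ) ^ 2 ≤ 4 * X / (T * L ^ 2) := by
      rw [← hwsq]
      exact pow_le_pow_left₀ (by positivity) hWw 2
    have hwX : 2 * w ≤ X := by
      have h1 : √(X / T) ≤ √(X : ℝ) := Real.sqrt_le_sqrt (div_le_self hX0 hT1)
      have h2 : w ≤ √(X : ℝ) := by
        rw [hw, div_le_iff₀ (by linarith)]
        nlinarith [Real.sqrt_nonneg (X : ℝ)]
      have h3 := Real.sq_sqrt hX0
      nlinarith
    have hlog1 : Real.log (2 * W) ≤ L := Real.log_le_log (by linarith) (by linarith)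
    have hlog2 : 1 + Real.log W ≤ 2 * L := by
      have : Real.log W ≤ L := Real.log_le_log (by linarith) (by linarith)
      linarith
    have hlog3 : 0 ≤ Real.log (2 * W) := Real.log_nonneg (by linarith)
    have hlog4 : 0 ≤ Real.log W := Real.log_nonneg hW1
    have hmom := moment (exc G X) (fun p hp => (mem_exc.1 hp).2.1) √(X : ℝ) hY1
      (fun p hp => (mem_exc.1 hp).2.2.1) W hW0
    rw [hlogY] at hmom
    have hcard : ((exc G X).card : ℝ) ≤ ∑ p ∈ exc G X, (VV p W : ℝ) := by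
      have h1 : ((exc G X).card : ℝ) = ∑ p ∈ exc G X, (1 : ℝ) := by simp
      rw [h1]
      exact Finset.sum_le_sum fun p hp => by exact_mod_cast hmem p hp
    have h5 : 2 * (W : ℝ) ^ 2 * Real.log (2 * W) * (1 + Real.log W) ≤
        2 * (4 * X / (T * L ^ 2)) * L * (2 * L) := by
      gcongr
    have h6 : ((exc G X).card : ℝ) * (L / 2) ≤ 16 * X / T := by
      have h7 : ((exc G X).card : ℝ) * (L / 2) ≤ (∑ p ∈ exc G X, (VV p W : ℝ)) * (L / 2) :=
        mul_le_mul_of_nonneg_right hcard (by linarith)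
      have h8 : 2 * (4 * X / (T * L ^ 2)) * L * (2 * L) = 16 * X / T := by
        field_simp
        norm_num
      linarith
    have h9 : ((exc G X).card : ℝ) ≤ 32 * X / (T * L) := by
      rw [le_div_iff₀ (by positivity)]
      rw [le_div_iff₀ (by positivity)] at h6
      nlinarith
    refine h9.trans ?_
    rw [div_le_iff₀ (by positivity)]
    have h10 : 32 ≤ ε * T := by
      rw [div_le_iff₀ hε] at hT2
      linarith
    have h11 : ε * (X / L) * (T * L) = (ε * T) * X := by
      field_simp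
    rw [h11]
    exact mul_le_mul_of_nonneg_right h10 hX0

end Pool.Agent.H424.GA
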