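import Mathlib
import Pool.Agent.H424.GA.PartOne

/-!
# For almost all primes there are few generalized Bernoulli numbers which are not units
-/

set_option autoImplicit false

namespace Pool.Agent.H424.GA

open Finset Filter Topology

lemma tele_sum (K : ℕ) : ∑ k ∈ range K, (1 : ℝ) / ((k : ℝ) + 2) ^ 2 ≤ 1 := by
  have h : ∀ K : ℕ, ∑ k ∈ range K, (1 : ℝ) / ((k : ℝ) + 2) ^ 2 ≤ 1 - 1 / ((K : ℝ) + 1) := by
    intro K
    induction K with
    | zero => simp
    | succ K ih =>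
      rw [Finset.sum_range_succ]
      have h1 : (1 : ℝ) / ((K : ℝ) + 2) ^ 2 ≤ 1 / ((K : ℝ) + 1) - 1 / ((K : ℝ) + 2) := by
        rw [div_sub_div _ _ (by positivity) (by positivity), div_le_div_iff₀ (by positivity) (by positivity)]
        nlinarith [Nat.cast_nonneg (α := ℝ) K]
      push_cast
      have h2 : (K : ℝ) + 1 + 1 = K + 2 := by ring
      rw [h2]
      linarith
  refine (h K).trans ?_
  have : (0 : ℝ) ≤ 1 / ((K : ℝ) + 1) := by positivity
  linarith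

/-- the second part -/
theorem few_two (Φ : ℕ → ℝ) (hΦ : Tendsto Φ atTop atTop) :
    Few (fun p => ∀ W : ℕ, 1 ≤ W → (VV p W : ℝ) ≤ Φ p * ((W : ℝ) ^ 2 * (1 + Real.log W) ^ 4) / p) := by
  intro ε hε
  set T : ℝ := max 1 (256 / ε) with hT
  have hT1 : 1 ≤ T := le_max_left _ _
  have hT2 : 256 / ε ≤ T := le_max_right _ _
  obtain ⟨P0, hP0⟩ := (tendsto_atTop.mp hΦ T).exists_forall_of_atTop
  filter_upwards [large_logs 2, large_sqrt (max P0 2)] with X hL2 hsq
  set G : ℕ → Prop := fun p => ∀ W : ℕ, 1 ≤ W →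
    (VV p W : ℝ) ≤ Φ p * ((W : ℝ) ^ 2 * (1 + Real.log W) ^ 4) / p with hG
  set L : ℝ := Real.log X with hL
  have hX0 : (0 : ℝ) ≤ X := Nat.cast_nonneg X
  have hsq2 : (2 : ℝ) ≤ √(X : ℝ) := (le_max_right _ _).trans hsq
  have hX4 : (4 : ℝ) ≤ X := by
    have h1 := Real.sq_sqrt hX0
    nlinarith
  have hXpos : (0 : ℝ) < X := by linarith
  have hY1 : (1 : ℝ) ≤ √(X : ℝ) := by linarith
  have hlogY : Real.log √(X : ℝ) = L / 2 := Real.log_sqrt hX0
  have hlog2 : (1 : ℝ) / 2 ≤ Real.log 2 := by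
    have := Real.log_two_gt_d9
    linarith
  have hlog2' : Real.log 2 ≤ 1 := by
    have := Real.log_two_lt_d9
    linarith
  -- the weights
  set c : ℕ → ℝ := fun k => 16 * X / (T * 4 ^ k * ((k : ℝ) + 2) ^ 4) with hc
  have hc0 : ∀ k, 0 ≤ c k := fun k => by
    rw [hc]
    positivity
  have hmem : ∀ p ∈ exc G X, ∃ k : ℕ, 1 ≤ (VV p (2 ^ (k + 1)) : ℝ) * c k := by
    intro p hp
    rw [mem_exc] at hp
    obtain ⟨hpX, hpp, hpY, hbad⟩ := hp
    rw [hG] at hbad
    push Not at hbad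
    obtain ⟨W, hW, hlt⟩ := hbad
    refine ⟨Nat.log 2 W, ?_⟩
    set k := Nat.log 2 W with hk
    have hW0 : W ≠ 0 := by omega
    have hkW : 2 ^ k ≤ W := Nat.pow_log_le_self 2 hW0
    have hWk : W ≤ 2 ^ (k + 1) := (Nat.lt_pow_succ_log_self (by norm_num) W).le
    have hpP0 : P0 ≤ p := by exact_mod_cast ((le_max_left _ _).trans hsq).trans hpY
    have hΦp : T ≤ Φ p := hP0 p hpP0
    have hpX' : (p : ℝ) ≤ X := by exact_mod_cast hpX
    have hp0 : (0 : ℝ) < p := by exact_mod_cast hpp.pos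
    have hkW' : ((2 : ℝ) ^ k) ≤ W := by exact_mod_cast hkW
    have h1 : ((k : ℝ) + 2) / 2 ≤ 1 + Real.log W := by
      have h2 : Real.log ((2 : ℝ) ^ k) ≤ Real.log W := Real.log_le_log (by positivity) hkW'
      rw [Real.log_pow] at h2
      have h3 : (k : ℝ) * (1 / 2) ≤ k * Real.log 2 := mul_le_mul_of_nonneg_left hlog2 (Nat.cast_nonneg _)
      linarith
    have h2 : T * ((4 : ℝ) ^ k * (((k : ℝ) + 2) / 2) ^ 4) / X ≤
        Φ p * ((W : ℝ) ^ 2 * (1 + Real.log W) ^ 4) / p := by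
      have h3 : (4 : ℝ) ^ k ≤ (W : ℝ) ^ 2 := by
        have : (4 : ℝ) ^ k = ((2 : ℝ) ^ k) ^ 2 := by
          rw [← pow_mul, mul_comm, pow_mul]
          norm_num
        rw [this]
        exact pow_le_pow_left₀ (by positivity) hkW' 2
      have h4 : (((k : ℝ) + 2) / 2) ^ 4 ≤ (1 + Real.log W) ^ 4 :=
        pow_le_pow_left₀ (by positivity) h1 4
      have h5 : T * ((4 : ℝ) ^ k * (((k : ℝ) + 2) / 2) ^ 4) ≤ Φ p * ((W : ℝ) ^ 2 * (1 + Real.log W) ^ 4) := by
        refine mul_le_mul hΦp (mul_le_mul h3 h4 (by positivity) (by positivity)) (by positivity) (by linarith)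
      exact div_le_div₀ (le_trans (by positivity) h5) h5 hp0 hpX'
    have h3 : (VV p W : ℝ) ≤ (VV p (2 ^ (k + 1)) : ℝ) := by exact_mod_cast VV_mono p hWk
    have h4 : T * ((4 : ℝ) ^ k * (((k : ℝ) + 2) / 2) ^ 4) / X ≤ (VV p (2 ^ (k + 1)) : ℝ) := by linarith
    have h5 : T * ((4 : ℝ) ^ k * (((k : ℝ) + 2) / 2) ^ 4) / X * c k = 1 := by
      rw [hc]
      simp only
      have h6 : ((k : ℝ) + 2) ≠ 0 := by positivity
      have h7 : T ≠ 0 := by linarith
      field_simp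
      norm_num
    rw [← h5]
    exact mul_le_mul_of_nonneg_right h4 (hc0 k)
  choose! kk hkk using hmem
  set K0 := (exc G X).sup kk + 1 with hK0
  have hcard : ((exc G X).card : ℝ) ≤ ∑ k ∈ range K0, (∑ p ∈ exc G X, (VV p (2 ^ (k + 1)) : ℝ)) * c k := by
    have h1 : ((exc G X).card : ℝ) = ∑ p ∈ exc G X, (1 : ℝ) := by simp
    rw [h1]
    have h2 : ∑ k ∈ range K0, (∑ p ∈ exc G X, (VV p (2 ^ (k + 1)) : ℝ)) * c k =
        ∑ p ∈ exc G X, ∑ k ∈ range K0, (VV p (2 ^ (k + 1)) : ℝ) * c k := by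
      rw [Finset.sum_comm]
      refine Finset.sum_congr rfl fun k _ => ?_
      rw [Finset.sum_mul]
    rw [h2]
    refine Finset.sum_le_sum fun p hp => (hkk p hp).trans ?_
    refine Finset.single_le_sum (f := fun k => (VV p (2 ^ (k + 1)) : ℝ) * c k)
      (fun k _ => mul_nonneg (Nat.cast_nonneg _) (hc0 k)) ?_
    rw [mem_range, hK0, Nat.lt_succ_iff]
    exact Finset.le_sup hp
  have hterm : ∀ k, (∑ p ∈ exc G X, (VV p (2 ^ (k + 1)) : ℝ)) * c k ≤
      (256 * X / (T * L)) * (1 / ((k : ℝ) + 2) ^ 2) := by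
    intro k
    have hmom := moment (exc G X) (fun p hp => (mem_exc.1 hp).2.1) √(X : ℝ) hY1
      (fun p hp => (mem_exc.1 hp).2.2.1) (2 ^ (k + 1)) Nat.one_le_two_pow
    rw [hlogY] at hmom
    push_cast at hmom
    have e1 : Real.log (2 * 2 ^ (k + 1)) ≤ (k : ℝ) + 2 := by
      rw [← pow_succ', Real.log_pow]
      push_cast
      have : ((k : ℝ) + 1 + 1) * Real.log 2 ≤ ((k : ℝ) + 1 + 1) * 1 :=
        mul_le_mul_of_nonneg_left hlog2' (by positivity)
      linarith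
    have e2 : 1 + Real.log (2 ^ (k + 1)) ≤ (k : ℝ) + 2 := by
      rw [Real.log_pow]
      push_cast
      have : ((k : ℝ) + 1) * Real.log 2 ≤ ((k : ℝ) + 1) * 1 :=
        mul_le_mul_of_nonneg_left hlog2' (by positivity)
      linarith
    have e3 : (0 : ℝ) ≤ Real.log (2 ^ (k + 1)) := by
      rw [Real.log_pow]
      have : (0 : ℝ) ≤ Real.log 2 := by linarith
      positivity
    have e4 : (0 : ℝ) ≤ Real.log (2 * 2 ^ (k + 1)) := by
      rw [← pow_succ', Real.log_pow]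
      have : (0 : ℝ) ≤ Real.log 2 := by linarith
      positivity
    have e5 : ((2 : ℝ) ^ (k + 1)) ^ 2 = 4 * 4 ^ k := by
      rw [← pow_mul, mul_comm, pow_mul]
      norm_num [pow_succ]
      ring
    have h1 : (∑ p ∈ exc G X, (VV p (2 ^ (k + 1)) : ℝ)) * (L / 2) ≤
        8 * 4 ^ k * ((k : ℝ) + 2) ^ 2 := by
      refine hmom.trans ?_
      rw [e5]
      have h2 : 2 * (4 * 4 ^ k) * Real.log (2 * 2 ^ (k + 1)) * (1 + Real.log (2 ^ (k + 1))) ≤
          2 * (4 * 4 ^ k) * ((k : ℝ) + 2) * ((k : ℝ) + 2) := by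
        gcongr
      linarith
    have h2 : ∑ p ∈ exc G X, (VV p (2 ^ (k + 1)) : ℝ) ≤ 16 * 4 ^ k * ((k : ℝ) + 2) ^ 2 / L := by
      rw [le_div_iff₀ (by linarith)]
      linarith
    refine (mul_le_mul_of_nonneg_right h2 (hc0 k)).trans (le_of_eq ?_)
    rw [hc]
    simp only
    have h6 : ((k : ℝ) + 2) ≠ 0 := by positivity
    have h7 : T ≠ 0 := by linarith
    have h8 : L ≠ 0 := by linarith
    field_simp
    norm_num
  have h9 : ((exc G X).card : ℝ) ≤ 256 * X / (T * L) := by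
    refine hcard.trans ((Finset.sum_le_sum fun k _ => hterm k).trans ?_)
    rw [← Finset.mul_sum]
    calc 256 * X / (T * L) * ∑ k ∈ range K0, 1 / ((k : ℝ) + 2) ^ 2
        ≤ 256 * X / (T * L) * 1 := mul_le_mul_of_nonneg_left (tele_sum K0) (by positivity)
      _ = _ := mul_one _
  refine h9.trans ?_
  rw [div_le_iff₀ (by positivity)]
  have h10 : 256 ≤ ε * T := by
    rw [div_le_iff₀ hε] at hT2
    linarith
  have h11 : ε * (X / L) * (T * L) = (ε * T) * X := by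
    have h8 : L ≠ 0 := by linarith
    field_simp
  rw [h11]
  exact mul_le_mul_of_nonneg_right h10 hX0

end Pool.Agent.H424.GA
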