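import Mathlib
import Pool.Agent.H424.GA.PartTwo

/-!
# For almost all primes the conductors `N₁ ℓ^K` with small `ℓ^K` cause no problems
-/

set_option autoImplicit false

namespace Pool.Agent.H424.GA

open Finset Filter Topology

/-- the `ℓ`-part of `p² - 1` -/
def RR (ℓ p : ℕ) : ℕ := ℓ ^ (p ^ 2 - 1).factorization ℓ

lemma pm_of_dvd {ℓ p i : ℕ} (hℓ : ℓ = 2 ∨ ℓ = 3) (hp : 1 ≤ p) (h : ℓ ^ (i + 1) ∣ p ^ 2 - 1) :
    ℓ ^ i ∣ p - 1 ∨ ℓ ^ i ∣ p + 1 := by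
  have hfac : p ^ 2 - 1 = (p - 1) * (p + 1) := by
    obtain ⟨e, rfl⟩ : ∃ e, p = e + 1 := ⟨p - 1, by omega⟩
    rw [Nat.add_sub_cancel]
    have : (e + 1) ^ 2 = e * (e + 1 + 1) + 1 := by ring
    omega
  rw [hfac] at h
  rcases hℓ with rfl | rfl
  · -- `ℓ = 2`
    by_cases h4 : 4 ∣ p - 1
    · -- then `p + 1` is twice an odd number
      left
      obtain ⟨y, hy⟩ := h4
      have h5 : p + 1 = 2 * (2 * y + 1) := by omega
      rw [h5, pow_succ', ← mul_assoc, mul_comm (p - 1) 2, mul_assoc] at h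
      have h6 := Nat.dvd_of_mul_dvd_mul_left (by norm_num) h
      refine Nat.Coprime.dvd_of_dvd_mul_right ?_ h6
      apply Nat.Coprime.pow_left
      rw [Nat.Prime.coprime_iff_not_dvd Nat.prime_two]
      omega
    · by_cases h2 : 2 ∣ p - 1
      · right
        obtain ⟨y, hy⟩ := h2
        have hyo : ¬ 2 ∣ y := fun h => by
          obtain ⟨z, hz⟩ := h
          exact h4 ⟨z, by omega⟩
        rw [hy, pow_succ', mul_assoc] at h
        have h6 := Nat.dvd_of_mul_dvd_mul_left (by norm_num) h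
        refine Nat.Coprime.dvd_of_dvd_mul_left ?_ h6
        apply Nat.Coprime.pow_left
        rw [Nat.Prime.coprime_iff_not_dvd Nat.prime_two]
        exact hyo
      · -- both factors are odd
        exfalso
        have h6 : 2 ∣ (p - 1) * (p + 1) := (dvd_pow_self 2 (by omega)).trans h
        rcases (Nat.prime_two.dvd_mul).1 h6 with h7 | h7
        · exact h2 h7
        · omega
  · have h' : 3 ^ i ∣ (p - 1) * (p + 1) := (pow_dvd_pow 3 (by omega)).trans h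
    by_cases h4 : 3 ∣ p + 1
    · right
      refine Nat.Coprime.dvd_of_dvd_mul_left ?_ h'
      apply Nat.Coprime.pow_left
      rw [Nat.Prime.coprime_iff_not_dvd Nat.prime_three]
      omega
    · left
      refine Nat.Coprime.dvd_of_dvd_mul_right ?_ h'
      apply Nat.Coprime.pow_left
      rwa [Nat.Prime.coprime_iff_not_dvd Nat.prime_three]

lemma card_pm (M X : ℕ) (hM : 1 ≤ M) (S : Finset ℕ)
    (hS : ∀ p ∈ S, 1 ≤ p ∧ p ≤ X ∧ (M ∣ p - 1 ∨ M ∣ p + 1)) : S.card ≤ 2 * (X / M + 1) := by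
  classical
  have h1 : S ⊆ (range (X / M + 1)).image (fun i => M * i + 1) ∪ (range (X / M + 1)).image
      (fun i => M * (i + 1) - 1) := by
    intro p hp
    obtain ⟨hp1, hpX, h⟩ := hS p hp
    rw [mem_union, mem_image, mem_image]
    rcases h with ⟨y, hy⟩ | ⟨y, hy⟩
    · left
      refine ⟨y, ?_, by omega⟩
      rw [mem_range, Nat.lt_succ_iff, Nat.le_div_iff_mul_le (by omega), mul_comm, ← hy]
      omega
    · right
      have hy0 : y ≠ 0 := by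
        rintro rfl
        omega
      obtain ⟨z, rfl⟩ := Nat.exists_eq_succ_of_ne_zero hy0
      refine ⟨z, ?_, by simp only [Nat.succ_eq_add_one] at hy; omega⟩
      rw [mem_range, Nat.lt_succ_iff, Nat.le_div_iff_mul_le (by omega), mul_comm]
      have h5 : M * (z + 1) = M * z + M := by ring
      simp only [Nat.succ_eq_add_one] at hy
      omega
  refine (card_le_card h1).trans ((card_union_le _ _).trans ?_)
  have h2 := Finset.card_image_le (s := range (X / M + 1)) (f := fun i => M * i + 1)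
  have h3 := Finset.card_image_le (s := range (X / M + 1)) (f := fun i => M * (i + 1) - 1)
  rw [card_range] at h2 h3
  omega

/-- the `ℓ`-part of `p² - 1` is small for almost all `p` -/
theorem few_RR (ℓ : ℕ) (hℓ : ℓ = 2 ∨ ℓ = 3) : Few (fun p => (RR ℓ p : ℝ) ≤ (Real.log p) ^ 2) := by
  intro ε hε
  filter_upwards [large_logs (max 4 (max (48 / ε) 1)), sqrt_small (ε / 2) (by positivity),
    large_sqrt 2] with X hL hsm hsq
  set L : ℝ := Real.log X with hLdef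
  have hL4 : 4 ≤ L := (le_max_left _ _).trans hL
  have hL48 : 48 / ε ≤ L := ((le_max_left _ _).trans (le_max_right _ _)).trans hL
  have hX0 : (0 : ℝ) ≤ X := Nat.cast_nonneg X
  have hlogY : Real.log √(X : ℝ) = L / 2 := Real.log_sqrt hX0
  set a : ℕ := ⌊L ^ 2 / 4⌋₊ with ha
  have ha1 : 1 ≤ a := by
    rw [ha]
    apply Nat.le_floor
    push_cast
    nlinarith
  have ha2 : (a : ℝ) ≤ L ^ 2 / 4 := Nat.floor_le (by positivity)
  have ha3 : L ^ 2 / 4 < a + 1 := Nat.lt_floor_add_one _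
  have hℓ2 : 1 < ℓ := by rcases hℓ with rfl | rfl <;> norm_num
  have hℓ3 : ℓ ≤ 3 := by rcases hℓ with rfl | rfl <;> norm_num
  have hℓp : ℓ.Prime := by rcases hℓ with rfl | rfl <;> norm_num
  set i := Nat.log ℓ a with hi
  have hi1 : ℓ ^ i ≤ a := Nat.pow_log_le_self ℓ (by omega)
  have hi2 : a < ℓ ^ (i + 1) := Nat.lt_pow_succ_log_self hℓ2 a
  have hM : L ^ 2 / 12 ≤ ((ℓ ^ i : ℕ) : ℝ) := by
    have h1 : a + 1 ≤ ℓ ^ i * 3 := by
      calc a + 1 ≤ ℓ ^ (i + 1) := hi2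
        _ = ℓ ^ i * ℓ := pow_succ ℓ i
        _ ≤ ℓ ^ i * 3 := Nat.mul_le_mul_left _ hℓ3
    have h2 : ((a : ℝ) + 1) ≤ ((ℓ ^ i : ℕ) : ℝ) * 3 := by exact_mod_cast h1
    linarith
  have hM1 : 1 ≤ ℓ ^ i := Nat.one_le_pow _ _ (by omega)
  have hcard := card_pm (ℓ ^ i) X hM1 (exc (fun p => (RR ℓ p : ℝ) ≤ (Real.log p) ^ 2) X) (by
    intro p hp
    rw [mem_exc] at hp
    obtain ⟨hpX, hpp, hpY, hbad⟩ := hp
    refine ⟨hpp.one_lt.le, hpX, ?_⟩
    apply pm_of_dvd hℓ hpp.one_lt.le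
    have hlogp : L / 2 ≤ Real.log p := by
      rw [← hlogY]
      exact Real.log_le_log (by linarith) hpY
    have h1 : (a : ℝ) < RR ℓ p := by
      have h2 : L ^ 2 / 4 ≤ (Real.log p) ^ 2 := by nlinarith
      linarith [not_le.1 hbad]
    have h2 : a < RR ℓ p := by exact_mod_cast h1
    have h3 : ℓ ^ i < ℓ ^ (p ^ 2 - 1).factorization ℓ := lt_of_le_of_lt hi1 h2
    have h4 : i < (p ^ 2 - 1).factorization ℓ := (Nat.pow_lt_pow_iff_right hℓ2).1 h3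
    exact (pow_dvd_pow ℓ h4).trans (Nat.ordProj_dvd _ _))
  have h1 : ((exc (fun p => (RR ℓ p : ℝ) ≤ (Real.log p) ^ 2) X).card : ℝ) ≤
      2 * ((X : ℝ) / ((ℓ ^ i : ℕ) : ℝ) + 1) := by
    have h2 : (((exc (fun p => (RR ℓ p : ℝ) ≤ (Real.log p) ^ 2) X).card : ℕ) : ℝ) ≤
        ((2 * (X / ℓ ^ i + 1) : ℕ) : ℝ) := by exact_mod_cast hcard
    refine h2.trans ?_
    push_cast
    have h3 : (((X / ℓ ^ i : ℕ)) : ℝ) ≤ (X : ℝ) / ((ℓ ^ i : ℕ) : ℝ) := Nat.cast_div_le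
    push_cast at h3
    linarith
  refine h1.trans ?_
  have h2 : (X : ℝ) / ((ℓ ^ i : ℕ) : ℝ) ≤ (X : ℝ) / (L ^ 2 / 12) :=
    div_le_div_of_nonneg_left hX0 (by positivity) hM
  have h3 : (X : ℝ) / (L ^ 2 / 12) ≤ (ε / 4) * (X / L) := by
    have h4 : (X : ℝ) / (L ^ 2 / 12) = (12 / L) * (X / L) := by
      field_simp
    rw [h4]
    refine mul_le_mul_of_nonneg_right ?_ (by positivity)
    rw [div_le_iff₀ (by linarith)]
    rw [div_le_iff₀ hε] at hL48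
    linarith
  have h5 : (1 : ℝ) ≤ ε / 2 * (X / (2 * L)) := by
    have := Real.sqrt_nonneg (X : ℝ)
    linarith
  have h6 : ε / 2 * (X / (2 * L)) = (ε / 4) * (X / L) := by
    field_simp
    ring
  linarith

lemma card_dvd {ι : Type*} (S : Finset ℕ) (hS : ∀ p ∈ S, p.Prime) (Y : ℝ) (hY : 1 ≤ Y)
    (hY' : ∀ p ∈ S, Y ≤ p) (J : Finset ι) (u : ι → ℕ) (hu : ∀ j ∈ J, u j ≠ 0)
    (h : ∀ p ∈ S, ∃ j ∈ J, p ∣ u j) : (S.card : ℝ) * Real.log Y ≤ ∑ j ∈ J, Real.log (u j) := by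
  have h1 : (S.card : ℝ) ≤ ∑ j ∈ J, ∑ p ∈ S, ((u j).factorization p : ℝ) := by
    rw [Finset.sum_comm]
    have h2 : (S.card : ℝ) = ∑ p ∈ S, (1 : ℝ) := by simp
    rw [h2]
    refine Finset.sum_le_sum fun p hp => ?_
    obtain ⟨j, hj, hd⟩ := h p hp
    have h3 : (1 : ℝ) ≤ ((u j).factorization p : ℝ) := by
      exact_mod_cast ((hS p hp).dvd_iff_one_le_factorization (hu j hj)).1 hd
    exact h3.trans (Finset.single_le_sum (f := fun j => ((u j).factorization p : ℝ))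
      (fun _ _ => Nat.cast_nonneg _) hj)
  refine (mul_le_mul_of_nonneg_right h1 (Real.log_nonneg hY)).trans ?_
  rw [Finset.sum_mul]
  exact Finset.sum_le_sum fun j hj => sum_fact_le S hS Y hY hY' (hu j hj)

lemma geom_filter (ℓ : ℕ) (hℓ : 2 ≤ ℓ) (B : ℝ) (hB : 0 ≤ B) (n : ℕ) :
    ∑ K ∈ (range n).filter (fun K => ((ℓ : ℝ) ^ K < B)), (ℓ : ℝ) ^ K ≤ 2 * B := by
  have hℓ' : (2 : ℝ) ≤ ℓ := by exact_mod_cast hℓ
  have hg : ∀ n : ℕ, ∑ K ∈ range (n + 1), (ℓ : ℝ) ^ K ≤ 2 * (ℓ : ℝ) ^ n := by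
    intro n
    induction n with
    | zero => simp
    | succ n ih =>
      rw [Finset.sum_range_succ, pow_succ]
      have : 0 ≤ (ℓ : ℝ) ^ n := by positivity
      nlinarith
  induction n with
  | zero => simpa using by linarith
  | succ n ih =>
    by_cases h : (ℓ : ℝ) ^ n < B
    · calc ∑ K ∈ (range (n + 1)).filter (fun K => ((ℓ : ℝ) ^ K < B)), (ℓ : ℝ) ^ K
          ≤ ∑ K ∈ range (n + 1), (ℓ : ℝ) ^ K :=
            Finset.sum_le_sum_of_subset_of_nonneg (Finset.filter_subset _ _) (fun _ _ _ => by positivity)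
        _ ≤ 2 * (ℓ : ℝ) ^ n := hg n
        _ ≤ 2 * B := by linarith
    · rw [Finset.range_add_one, Finset.filter_insert, if_neg h]
      exact ih

/-- the third part -/
theorem few_three (ℓ : ℕ) (hℓ : 2 ≤ ℓ) : Few (fun p => ∀ N m K : ℕ, 1 ≤ N → 1 ≤ m →
    (Real.log p) ^ 8 * ((m : ℝ) ^ 3 * (N : ℝ) ^ 5) ≤ p →
    (ℓ : ℝ) ^ K < (m : ℝ) * (N : ℝ) ^ 3 * (Real.log p) ^ 4 → ¬ p ∣ nuF (N * ℓ ^ K) m) := by
  classical
  intro ε hε
  filter_upwards [large_logs (max 4 (90112 / ε)), large_sqrt 2] with X hL hsq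
  set G : ℕ → Prop := fun p => ∀ N m K : ℕ, 1 ≤ N → 1 ≤ m →
    (Real.log p) ^ 8 * ((m : ℝ) ^ 3 * (N : ℝ) ^ 5) ≤ p →
    (ℓ : ℝ) ^ K < (m : ℝ) * (N : ℝ) ^ 3 * (Real.log p) ^ 4 → ¬ p ∣ nuF (N * ℓ ^ K) m with hG
  set L : ℝ := Real.log X with hLdef
  have hL4 : 4 ≤ L := (le_max_left _ _).trans hL
  have hLε : 90112 / ε ≤ L := (le_max_right _ _).trans hL
  have hX0 : (0 : ℝ) ≤ X := Nat.cast_nonneg X
  have hlogY : Real.log √(X : ℝ) = L / 2 := Real.log_sqrt hX0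
  have hX2 : (2 : ℝ) ≤ X := by
    have h1 := Real.sq_sqrt hX0
    nlinarith
  have hLX : L ≤ X := by
    have := Real.log_le_sub_one_of_pos (show (0 : ℝ) < X by linarith)
    linarith
  set Z : ℝ := 256 * X / L ^ 8 with hZ
  have hZ0 : 0 ≤ Z := by positivity
  have hZX : Z ≤ X := by
    rw [hZ, div_le_iff₀ (by positivity)]
    have h1 : (4 : ℝ) ^ 8 ≤ L ^ 8 := pow_le_pow_left₀ (by norm_num) hL4 8
    norm_num at h1
    nlinarith
  -- the exceptional primes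
  have hmem : ∀ p ∈ exc G X, ∃ N m K : ℕ, 1 ≤ N ∧ 1 ≤ m ∧ (m : ℝ) ^ 3 * (N : ℝ) ^ 5 ≤ Z ∧
      (ℓ : ℝ) ^ K < (m : ℝ) * (N : ℝ) ^ 3 * L ^ 4 ∧ p ∣ nuF (N * ℓ ^ K) m := by
    intro p hp
    rw [mem_exc] at hp
    obtain ⟨hpX, hpp, hpY, hbad⟩ := hp
    rw [hG] at hbad
    push Not at hbad
    obtain ⟨N, m, K, hN, hm, h1, h2, hd⟩ := hbad
    have hpX' : (p : ℝ) ≤ X := by exact_mod_cast hpX
    have hp0 : (0 : ℝ) < p := by exact_mod_cast hpp.pos
    have hlogp : L / 2 ≤ Real.log p := by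
      rw [← hlogY]
      exact Real.log_le_log (by linarith) hpY
    have hlogp' : Real.log p ≤ L := Real.log_le_log hp0 hpX'
    refine ⟨N, m, K, hN, hm, ?_, ?_, hd⟩
    · rw [hZ, le_div_iff₀ (by positivity)]
      have h3 : (L / 2) ^ 8 ≤ (Real.log p) ^ 8 := pow_le_pow_left₀ (by linarith) hlogp 8
      have h4 : (L / 2) ^ 8 * ((m : ℝ) ^ 3 * (N : ℝ) ^ 5) ≤ X := by
        refine (mul_le_mul_of_nonneg_right h3 (by positivity)).trans (h1.trans hpX')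
      have h5 : (L / 2) ^ 8 = L ^ 8 / 256 := by
        rw [div_pow]
        norm_num
      rw [h5] at h4
      linarith
    · refine lt_of_lt_of_le h2 ?_
      have h3 : (Real.log p) ^ 4 ≤ L ^ 4 := pow_le_pow_left₀ (by linarith) hlogp' 4
      exact mul_le_mul_of_nonneg_left h3 (by positivity)
  choose! NN mm KK hNN hmm hZZ hKK hdd using hmem
  set K0 := (exc G X).sup KK + 1 with hK0
  set P : ℕ × ℕ × ℕ → Prop := fun t => (t.2.1 : ℝ) ^ 3 * (t.1 : ℝ) ^ 5 ≤ Z ∧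
    (ℓ : ℝ) ^ t.2.2 < (t.2.1 : ℝ) * (t.1 : ℝ) ^ 3 * L ^ 4 with hP
  set J : Finset (ℕ × ℕ × ℕ) := (Icc 1 X ×ˢ (Icc 1 X ×ˢ range K0)).filter P with hJ
  have hcard := card_dvd (exc G X) (fun p hp => (mem_exc.1 hp).2.1) √(X : ℝ) (by linarith)
    (fun p hp => (mem_exc.1 hp).2.2.1) J (fun t => nuF (t.1 * ℓ ^ t.2.2) t.2.1)
    (fun t _ => nuF_ne_zero _ _) (fun p hp => by
      refine ⟨(NN p, mm p, KK p), ?_, hdd p hp⟩
      have hm1 : (1 : ℝ) ≤ mm p := by exact_mod_cast hmm p hp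
      have hN1 : (1 : ℝ) ≤ NN p := by exact_mod_cast hNN p hp
      have h1 := (hZZ p hp).trans hZX
      rw [hJ, mem_filter, mem_product, mem_product, mem_Icc, mem_Icc, mem_range]
      refine ⟨⟨⟨hNN p hp, ?_⟩, ⟨hmm p hp, ?_⟩, ?_⟩, hZZ p hp, hKK p hp⟩
      · have h2 : (NN p : ℝ) ≤ (mm p : ℝ) ^ 3 * (NN p : ℝ) ^ 5 := by
          have h3 : (1 : ℝ) ≤ (mm p : ℝ) ^ 3 := one_le_pow₀ hm1
          have h4 : (NN p : ℝ) ≤ (NN p : ℝ) ^ 5 := le_self_pow₀ hN1 (by norm_num)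
          nlinarith
        exact_mod_cast h2.trans h1
      · have h2 : (mm p : ℝ) ≤ (mm p : ℝ) ^ 3 * (NN p : ℝ) ^ 5 := by
          have h3 : (1 : ℝ) ≤ (NN p : ℝ) ^ 5 := one_le_pow₀ hN1
          have h4 : (mm p : ℝ) ≤ (mm p : ℝ) ^ 3 := le_self_pow₀ hm1 (by norm_num)
          nlinarith
        exact_mod_cast h2.trans h1
      · rw [hK0, Nat.lt_succ_iff]
        exact Finset.le_sup (f := KK) hp)
  rw [hlogY] at hcard
  -- the sum over the index set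
  have hsum : ∑ t ∈ J, Real.log (nuF (t.1 * ℓ ^ t.2.2) t.2.1) ≤
      ∑ N ∈ Icc 1 X, ∑ m ∈ Icc 1 X, 44 * L ^ 5 * Z * ((N : ℝ)⁻¹ * (m : ℝ)⁻¹) := by
    have h1 : ∑ t ∈ J, Real.log (nuF (t.1 * ℓ ^ t.2.2) t.2.1) =
        ∑ N ∈ Icc 1 X, ∑ m ∈ Icc 1 X, ∑ K ∈ range K0,
          if P (N, m, K) then Real.log (nuF (N * ℓ ^ K) m) else 0 := by
      rw [hJ, Finset.sum_filter, Finset.sum_product]
      refine Finset.sum_congr rfl fun N _ => ?_
      rw [Finset.sum_product]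
    rw [h1]
    refine Finset.sum_le_sum fun N hN => Finset.sum_le_sum fun m hm => ?_
    rw [mem_Icc] at hN hm
    have hN1 : (1 : ℝ) ≤ N := by exact_mod_cast hN.1
    have hm1 : (1 : ℝ) ≤ m := by exact_mod_cast hm.1
    have hNX : (N : ℝ) ≤ X := by exact_mod_cast hN.2
    have hmX : (m : ℝ) ≤ X := by exact_mod_cast hm.2
    by_cases hZm : (m : ℝ) ^ 3 * (N : ℝ) ^ 5 ≤ Z
    · have hle : ∀ K ∈ range K0, (if P (N, m, K) then Real.log (nuF (N * ℓ ^ K) m) else 0) ≤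
          if (ℓ : ℝ) ^ K < (m : ℝ) * (N : ℝ) ^ 3 * L ^ 4 then 22 * N * m * L * (ℓ : ℝ) ^ K else 0 := by
        intro K _
        by_cases hc : (ℓ : ℝ) ^ K < (m : ℝ) * (N : ℝ) ^ 3 * L ^ 4
        · rw [if_pos ⟨hZm, hc⟩, if_pos hc]
          have hℓK : 1 ≤ ℓ ^ K := Nat.one_le_pow _ _ (by omega)
          refine (log_nuF_le (Nat.mul_pos hN.1 hℓK) hm.1).trans ?_
          have hbig : 2 * ((N * ℓ ^ K * m : ℕ) : ℝ) ≤ (X : ℝ) ^ 11 := by
            push_cast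
            have h3 : 2 * ((N : ℝ) * (ℓ : ℝ) ^ K * m) ≤ X * (X * (X * X ^ 3 * X ^ 4) * X) := by
              have h4 : (ℓ : ℝ) ^ K ≤ X * X ^ 3 * X ^ 4 := by
                refine hc.le.trans ?_
                gcongr
              gcongr
            calc 2 * ((N : ℝ) * (ℓ : ℝ) ^ K * m) ≤ X * (X * (X * X ^ 3 * X ^ 4) * X) := h3
              _ = (X : ℝ) ^ 11 := by ring
          have hpos : (1 : ℝ) ≤ ((N * ℓ ^ K * m : ℕ) : ℝ) := by
            exact_mod_cast Nat.mul_pos (Nat.mul_pos hN.1 hℓK) hm.1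
          have hlog : Real.log (2 * ((N * ℓ ^ K * m : ℕ) : ℝ)) ≤ 11 * L := by
            have h3 := Real.log_le_log (by linarith) hbig
            rw [Real.log_pow] at h3
            push_cast at h3 ⊢
            exact h3
          calc 2 * ((N * ℓ ^ K * m : ℕ) : ℝ) * Real.log (2 * ((N * ℓ ^ K * m : ℕ) : ℝ))
              ≤ 2 * ((N * ℓ ^ K * m : ℕ) : ℝ) * (11 * L) :=
                mul_le_mul_of_nonneg_left hlog (by linarith)
            _ = 22 * N * m * L * (ℓ : ℝ) ^ K := by push_cast; ring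
        · rw [if_neg hc, if_neg fun h => hc h.2]
      refine (Finset.sum_le_sum hle).trans ?_
      rw [← Finset.sum_filter, ← Finset.mul_sum]
      have hgeo := geom_filter ℓ hℓ ((m : ℝ) * (N : ℝ) ^ 3 * L ^ 4) (by positivity) K0
      calc 22 * N * m * L * ∑ K ∈ (range K0).filter
            (fun K => (ℓ : ℝ) ^ K < (m : ℝ) * (N : ℝ) ^ 3 * L ^ 4), (ℓ : ℝ) ^ K
          ≤ 22 * N * m * L * (2 * ((m : ℝ) * (N : ℝ) ^ 3 * L ^ 4)) :=
            mul_le_mul_of_nonneg_left hgeo (by positivity)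
        _ = 44 * L ^ 5 * ((m : ℝ) ^ 3 * (N : ℝ) ^ 5) * ((N : ℝ)⁻¹ * (m : ℝ)⁻¹) := by
            field_simp
            ring
        _ ≤ 44 * L ^ 5 * Z * ((N : ℝ)⁻¹ * (m : ℝ)⁻¹) := by
            gcongr
    · rw [Finset.sum_eq_zero]
      · positivity
      · intro K _
        rw [if_neg fun h => hZm h.1]
  have hharm : ∑ N ∈ Icc 1 X, ((N : ℝ))⁻¹ ≤ 2 * L := by
    have h4 := harmonic_le_one_add_log X
    rw [harmonic_eq_sum_Icc] at h4
    push_cast at h4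
    refine h4.trans ?_
    rw [← hLdef]
    linarith
  have hharm0 : 0 ≤ ∑ N ∈ Icc 1 X, ((N : ℝ))⁻¹ := Finset.sum_nonneg fun N _ => by positivity
  have hsum2 : ∑ N ∈ Icc 1 X, ∑ m ∈ Icc 1 X, 44 * L ^ 5 * Z * ((N : ℝ)⁻¹ * (m : ℝ)⁻¹) ≤
      176 * L ^ 7 * Z := by
    have h1 : ∑ N ∈ Icc 1 X, ∑ m ∈ Icc 1 X, 44 * L ^ 5 * Z * ((N : ℝ)⁻¹ * (m : ℝ)⁻¹) =
        44 * L ^ 5 * Z * ((∑ N ∈ Icc 1 X, ((N : ℝ))⁻¹) * (∑ N ∈ Icc 1 X, ((N : ℝ))⁻¹)) := by
      rw [Finset.sum_mul_sum, Finset.mul_sum]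
      refine Finset.sum_congr rfl fun N _ => ?_
      rw [Finset.mul_sum]
    rw [h1]
    calc 44 * L ^ 5 * Z * ((∑ N ∈ Icc 1 X, ((N : ℝ))⁻¹) * (∑ N ∈ Icc 1 X, ((N : ℝ))⁻¹))
        ≤ 44 * L ^ 5 * Z * ((2 * L) * (2 * L)) := by gcongr
      _ = 176 * L ^ 7 * Z := by ring
  have h7 : 176 * L ^ 7 * Z = 45056 * (X / L) := by
    rw [hZ]
    field_simp
    norm_num
  have h8 : ((exc G X).card : ℝ) * (L / 2) ≤ 45056 * (X / L) := by
    rw [← h7]
    exact hcard.trans (hsum.trans hsum2)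
  have h9 : ((exc G X).card : ℝ) ≤ 90112 / L * (X / L) := by
    have h10 : 90112 / L * (X / L) = 45056 * (X / L) / (L / 2) := by
      field_simp
      norm_num
    rw [h10, le_div_iff₀ (by linarith)]
    exact h8
  refine h9.trans (mul_le_mul_of_nonneg_right ?_ (by positivity))
  rw [div_le_iff₀ (by linarith)]
  rw [div_le_iff₀ hε] at hLε
  linarith

end Pool.Agent.H424.GA
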