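import Mathlib
import Pool.Agent.Results.MP_c2a07f_nt.FiveAndPowersOfThree
import Pool.Agent.H424.GA.PartThree

/-!
# Large conductors `N ℓ^K`, and the values at the places above `p`
-/

set_option autoImplicit false

namespace Pool.Agent.H424.GA

open Finset Filter Topology

/-- `B_{m,ψ} = f^(m-1) ∑_{a=1}^f ψ(a) B_m(a/f)` -/
noncomputable def gB (m : ℕ) {f : ℕ} (ψ : DirichletCharacter ℂ f) : ℂ :=
  (f : ℂ) ^ (m - 1) * ∑ a ∈ Finset.Icc 1 f, ψ (a : ZMod f) *
    (((Polynomial.bernoulli m).eval ((a : ℚ) / f) : ℚ) : ℂ)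

lemma gB_eq {m f : ℕ} [NeZero f] (_ : 1 ≤ m) (h1 : f ≠ 1 ∨ m ≠ 1) (ψ : DirichletCharacter ℂ f) :
    gB m ψ = (f : ℂ) ^ (m - 1) * bsum m ψ := by
  unfold gB bsum
  congr 1
  rcases eq_or_ne f 1 with hf | hf
  · subst hf
    have hm1 : m ≠ 1 := h1.resolve_left (fun h => h rfl)
    have hu : (Finset.univ : Finset (ZMod 1)) = {0} := Finset.univ_unique
    rw [Finset.Icc_self, Finset.sum_singleton, hu, Finset.sum_singleton]
    have h2 : ((1 : ℕ) : ZMod 1) = 0 := Subsingleton.elim _ _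
    rw [h2]
    have h3 : (0 : ZMod 1).val = 0 := rfl
    rw [h3]
    simp only [Nat.cast_one, div_one, Nat.cast_zero, Polynomial.bernoulli_eval_one,
      Polynomial.bernoulli_eval_zero]
    rw [bernoulli_eq_bernoulli'_of_ne_one hm1]
  · have hF : ∑ a ∈ Finset.Icc 1 f, ψ (a : ZMod f) *
        (((Polynomial.bernoulli m).eval ((a : ℚ) / f) : ℚ) : ℂ) =
        ∑ a ∈ Finset.range f, ψ (a : ZMod f) * (((Polynomial.bernoulli m).eval ((a : ℚ) / f) : ℚ) : ℂ) := by
      refine Pool.Agent.Results.MP_c2a07f_nt.FiveAndPowersOfThree.sum_Icc _ ?_ ?_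
      · rw [Nat.cast_zero, DirichletCharacter.map_zero' ψ hf, zero_mul]
      · rw [ZMod.natCast_self, DirichletCharacter.map_zero' ψ hf, zero_mul]
    rw [hF]
    refine Finset.sum_nbij' (fun j => (j : ZMod f)) (fun x => x.val) ?_ ?_ ?_ ?_ ?_
    · intro j _; exact mem_univ _
    · intro x _; exact mem_range.mpr (ZMod.val_lt x)
    · intro j hj
      exact ZMod.val_cast_of_lt (mem_range.mp hj)
    · intro x _; exact ZMod.natCast_zmod_val x
    · intro j hj
      rw [ZMod.val_cast_of_lt (mem_range.mp hj)]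

section
variable {p : ℕ} (hp : p.Prime) (B : ValuationSubring ℂ) (hB : B.valuation (p : ℂ) < 1)

include hp hB in
/-- the valuations of `al m ψ` and of `B_{m,ψ} / m` agree -/
lemma val_gB {m f : ℕ} [NeZero f] (hm : 1 ≤ m) (hmp : m + 2 ≤ p) (h1 : f ≠ 1 ∨ m ≠ 1) (hpf : ¬ p ∣ f)
    (ψ : DirichletCharacter ℂ f) : B.valuation (gB m ψ / m) = B.valuation (al m ψ) := by
  have hpm : ¬ p ∣ m := fun h => by
    have := Nat.le_of_dvd (by omega) h
    omega
  have hpfac : ¬ p ∣ (m + 1).factorial := fun h => by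
    have := (hp.dvd_factorial).1 h
    omega
  rw [al_eq, gB_eq hm h1, map_div₀, map_mul, map_mul, map_mul, map_pow, map_pow,
    Pool.Agent.Y18.GX.nat_val hp hB hpf, Pool.Agent.Y18.GX.nat_val hp hB hpm,
    Pool.Agent.Y18.GX.nat_val hp hB hpfac]
  simp

include hp hB in
lemma val_unit {z : ℂ} (h : Pool.Agent.Results.MP_c2a07f_nt.FiveAndPowersOfThree.IsUnitAt p z) :
    B.valuation z = 1 := by
  obtain ⟨h0, c, hc, h1, h2⟩ := h
  have hvc : B.valuation (c : ℂ) = 1 := by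
    have h3 : ¬ p ∣ c.natAbs := by
      intro h4
      have h5 : (p : ℤ) ∣ c := Int.natCast_dvd.2 h4
      have h6 := hc.isUnit_of_dvd' dvd_rfl h5
      rw [Int.isUnit_iff] at h6
      have := hp.two_le
      omega
    have h4 := Pool.Agent.Y18.GX.nat_val hp hB h3
    rcases Int.natAbs_eq c with h5 | h5
    · have h6 : (c : ℂ) = ((c.natAbs : ℕ) : ℂ) := by
        rw [← Int.cast_natCast]
        exact congrArg _ h5
      rw [h6, h4]
    · have h6 : (c : ℂ) = -((c.natAbs : ℕ) : ℂ) := by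
        rw [← Int.cast_natCast, ← Int.cast_neg]
        exact congrArg _ h5
      rw [h6, Valuation.map_neg, h4]
  have h3 : B.valuation ((c : ℂ) * z) ≤ 1 := (B.valuation_le_one_iff _).2 (mem_of_int B h1)
  have h4 : B.valuation ((c : ℂ) * z⁻¹) ≤ 1 := (B.valuation_le_one_iff _).2 (mem_of_int B h2)
  rw [map_mul, hvc, one_mul] at h3 h4
  rw [map_inv₀] at h4
  have h5 : B.valuation z ≠ 0 := (Valuation.ne_zero_iff _).2 h0
  refine le_antisymm h3 ?_
  exact (inv_le_one₀ (zero_lt_iff.2 h5)).1 h4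

lemma lte {ℓ g : ℕ} (hℓ : ℓ = 2 ∨ ℓ = 3) (h5 : 5 ≤ p) (hp : p.Prime) (hg : 1 ≤ g) :
    ℓ ^ (p ^ (2 * g) - 1).factorization ℓ ≤ RR ℓ p * g := by
  have hℓp : ℓ.Prime := by rcases hℓ with rfl | rfl <;> norm_num
  have hfp : Fact ℓ.Prime := ⟨hℓp⟩
  have hp1 : 1 < p := hp.one_lt
  have hpodd : Odd p := hp.odd_of_ne_two (by omega)
  have hval : (p ^ (2 * g) - 1).factorization ℓ = (p ^ 2 - 1).factorization ℓ + g.factorization ℓ := by
    have hne1 : p ^ 2 - 1 ≠ 0 := by
      have : 1 < p ^ 2 := Nat.one_lt_pow (by norm_num) hp1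
      omega
    rw [Nat.factorization_def _ hℓp, Nat.factorization_def _ hℓp, Nat.factorization_def _ hℓp]
    rcases hℓ with rfl | rfl
    · have h1 := padicValNat.pow_two_sub_pow (x := p) (y := 1) hp1
        (by obtain ⟨k, hk⟩ := hpodd; exact ⟨k, by omega⟩)
        (by obtain ⟨k, hk⟩ := hpodd; omega) (n := 2 * g) (by omega) (even_two_mul g)
      rw [one_pow, padicValNat.mul (by norm_num) (by omega), padicValNat_self] at h1
      have h2 : padicValNat 2 (p ^ 2 - 1) = padicValNat 2 (p + 1) + padicValNat 2 (p - 1) := by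
        have hfac : p ^ 2 - 1 = (p + 1) * (p - 1) := by
          obtain ⟨e, rfl⟩ : ∃ e, p = e + 1 := ⟨p - 1, by omega⟩
          rw [Nat.add_sub_cancel]
          have : (e + 1) ^ 2 = (e + 1 + 1) * e + 1 := by ring
          omega
        rw [hfac, padicValNat.mul (by omega) (by omega)]
      omega
    · have h3 : p ^ 2 % 3 = 1 := by
        have h4 : p % 3 = 1 ∨ p % 3 = 2 := by
          have : ¬ 3 ∣ p := fun h => by
            have := (Nat.prime_dvd_prime_iff_eq Nat.prime_three hp).1 h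
            omega
          omega
        rw [Nat.pow_mod]
        rcases h4 with h4 | h4 <;> rw [h4]
      have hlt : 1 < p ^ 2 := Nat.one_lt_pow (by norm_num) hp1
      have hd3 : 3 ∣ p ^ 2 - 1 := by omega
      have hn3 : ¬ 3 ∣ p ^ 2 := by omega
      have h1 := padicValNat.pow_sub_pow (p := 3) (x := p ^ 2) (y := 1) (by decide) hlt hd3 hn3
        (n := g) (by omega)
      rw [one_pow, ← pow_mul] at h1
      exact h1
  rw [hval, pow_add]
  unfold RR
  exact Nat.mul_le_mul_left _ (Nat.ordProj_le ℓ (by omega))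

include hp hB in
/-- the case of large `ℓ^K` -/
theorem tower {ℓ N m K : ℕ} (hℓ : ℓ = 2 ∨ ℓ = 3) (h5 : 5 ≤ p) (hN1 : 1 ≤ N) (hNp : N < p) (hN : N.Coprime ℓ)
    (hm : 1 ≤ m) (hmp : m + 2 ≤ p) (hsize : m * N ^ 3 * RR ℓ p ^ 2 ≤ ℓ ^ K)
    (ψ : DirichletCharacter ℂ (N * ℓ ^ K)) (hψ : ψ.IsPrimitive) (hpar : ψ (-1) = (-1) ^ m) :
    B.valuation (gB m ψ / m) = 1 := by
  have hℓp : ℓ.Prime := by rcases hℓ with rfl | rfl <;> norm_num
  have hpN : ¬ p ∣ N := fun h => by
    have := Nat.le_of_dvd (by omega) h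
    omega
  have hpℓ : p ≠ ℓ := by rcases hℓ with rfl | rfl <;> omega
  set g' := N.totient.totient with hg'
  have hφ0 : 0 < N.totient := Nat.totient_pos.2 (by omega)
  have hg'0 : 0 < g' := Nat.totient_pos.2 hφ0
  have hg'N : g' ≤ N := (Nat.totient_le _).trans (Nat.totient_le _)
  have hφ : N.totient ∣ p ^ (2 * g') - 1 := by
    have hcop : p.Coprime N.totient := by
      rw [Nat.Prime.coprime_iff_not_dvd hp]
      intro h
      have h1 := Nat.le_of_dvd hφ0 h
      have h2 := Nat.totient_le N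
      omega
    have h1 := Nat.ModEq.pow_totient hcop
    have h2 : p ^ (2 * g') ≡ 1 [MOD N.totient] := by
      rw [mul_comm, pow_mul]
      have := h1.pow 2
      rwa [one_pow] at this
    exact (Nat.modEq_iff_dvd' (Nat.one_le_pow _ _ hp.pos)).1 h2.symm
  set n := (p ^ (2 * g') - 1).factorization ℓ with hn
  have hne : p ^ (2 * g') - 1 ≠ 0 := by
    have : 1 < p ^ (2 * g') := Nat.one_lt_pow (by omega) hp.one_lt
    omega
  have hsize2 : m * N * ℓ ^ (2 * n) ≤ ℓ ^ K := by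
    refine le_trans ?_ hsize
    have h1 := lte hℓ h5 hp (g := g') hg'0
    rw [← hn] at h1
    have h2 : ℓ ^ n ≤ RR ℓ p * N := h1.trans (Nat.mul_le_mul_left _ hg'N)
    calc m * N * ℓ ^ (2 * n) = m * N * (ℓ ^ n) ^ 2 := by rw [mul_comm 2 n, pow_mul]
      _ ≤ m * N * (RR ℓ p * N) ^ 2 := Nat.mul_le_mul_left _ (Nat.pow_le_pow_left h2 2)
      _ = m * N ^ 3 * RR ℓ p ^ 2 := by ring
  have hcond : ℓ ^ K ∣ ψ.conductor := by
    rw [DirichletCharacter.isPrimitive_def] at hψ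
    rw [hψ]
    exact dvd_mul_left _ _
  have hunit := Pool.Agent.Results.MP_c2a07f_nt.FiveAndPowersOfThree.part_one hp h5 hℓ (N₁ := N)
    (g := 2 * g') (n := n) hN hpN (even_two_mul g') hφ (Nat.ordProj_dvd _ _)
    (Nat.pow_succ_factorization_not_dvd hne hℓp) hm (by omega) hsize2 ψ hcond hpar
  have hv := val_unit hp B hB hunit
  -- split off the Euler factor
  have hf0 : N * ℓ ^ K ≠ 0 := mul_ne_zero (by omega) (pow_ne_zero _ hℓp.ne_zero)
  have : NeZero (N * ℓ ^ K) := ⟨hf0⟩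
  have hpf : ¬ p ∣ N * ℓ ^ K := by
    intro h
    rcases (hp.dvd_mul).1 h with h | h
    · exact hpN h
    · exact hpℓ ((Nat.prime_dvd_prime_iff_eq hp hℓp).1 (hp.dvd_of_dvd_pow h))
  have h1m : N * ℓ ^ K ≠ 1 ∨ m ≠ 1 := by
    by_contra hcon
    push Not at hcon
    obtain ⟨hc1, hc2⟩ := hcon
    have h6 : ψ = 1 := by
      revert ψ
      rw [hc1]
      intro ψ _ _ _ _ _
      exact DirichletCharacter.level_one ψ
    rw [h6, hc2, pow_one, MulChar.one_apply (by simp : IsUnit (-1 : ZMod (N * ℓ ^ K)))] at hpar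
    norm_num at hpar
  have hsplit : Pool.Agent.Results.MP_c2a07f_nt.FiveAndPowersOfThree.lValue p m ψ =
      (1 - ψ (p : ZMod (N * ℓ ^ K)) * (p : ℂ) ^ (m - 1)) * (gB m ψ / m) := by
    unfold Pool.Agent.Results.MP_c2a07f_nt.FiveAndPowersOfThree.lValue
      Pool.Agent.Results.MP_c2a07f_nt.FiveAndPowersOfThree.genBernoulli gB
    ring
  rw [hsplit, map_mul] at hv
  have hE : B.valuation (1 - ψ (p : ZMod (N * ℓ ^ K)) * (p : ℂ) ^ (m - 1)) ≤ 1 := by
    rw [B.valuation_le_one_iff]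
    refine sub_mem (one_mem _) (mul_mem ?_ (pow_mem ?_ _))
    · exact Pool.Agent.Y18.GX.char_mem B hf0 ψ _
    · exact natCast_mem _ _
  have hG : B.valuation (gB m ψ / m) ≤ 1 := by
    rw [val_gB hp B hB hm hmp h1m hpf, B.valuation_le_one_iff]
    exact mem_of_int B (al_int m ψ)
  refine le_antisymm hG ?_
  calc (1 : B.ValueGroup) = _ := hv.symm
    _ ≤ 1 * B.valuation (gB m ψ / m) := mul_le_mul' hE le_rfl
    _ = _ := one_mul _

end

end Pool.Agent.H424.GA
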