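import Mathlib
import Pool.Agent.H424.GA.Tower

/-!
# Even characters `ψ ω^m` and the numbers `B_{m,ψ} / m`
-/

set_option autoImplicit false

namespace Pool.Agent.H424.GA

open Filter Topology Finset

/-- The generalized Bernoulli number `B_{m,ψ} = f^(m-1) ∑_{a=1}^f ψ(a) B_m(a/f)`. -/
noncomputable def genBernoulli (m : ℕ) {f : ℕ} (ψ : DirichletCharacter ℂ f) : ℂ :=
  (f : ℂ) ^ (m - 1) * ∑ a ∈ Finset.Icc 1 f, ψ (a : ZMod f) *
    (((Polynomial.bernoulli m).eval ((a : ℚ) / f) : ℚ) : ℂ)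

/-- `ψ` is a primitive character modulo `f`, `p` does not divide `f φ(f)`, `1 ≤ m ≤ p - 2` and
`ψ(-1) = (-1)^m`; these data are the even character `θ = ψ ω^m`. -/
def IsTheta (p : ℕ) {f : ℕ} (ψ : DirichletCharacter ℂ f) (m : ℕ) : Prop :=
  1 ≤ f ∧ ¬ p ∣ f * f.totient ∧ 1 ≤ m ∧ m + 2 ≤ p ∧ ψ.IsPrimitive ∧ ψ (-1) = (-1) ^ m

/-- `B_{m,ψ} / m` is a unit of the valuation ring `B`. -/
def UnitIn (B : ValuationSubring ℂ) {f : ℕ} (ψ : DirichletCharacter ℂ f) (m : ℕ) : Prop :=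
  B.valuation (genBernoulli m ψ / m) = 1

/-- The pairs `(ψ, m)`, `ψ` of conductor `f` with `f m ≤ W`, for which `B_{m,ψ} / m` is not a unit of the
valuation ring `B`. -/
def nonUnits (p W : ℕ) (B : ValuationSubring ℂ) : Set ((Σ f : ℕ, DirichletCharacter ℂ f) × ℕ) :=
  {t | IsTheta p t.1.2 t.2 ∧ t.1.1 * t.2 ≤ W ∧ ¬ UnitIn B t.1.2 t.2}

lemma unit_of_not_dvd {p f m : ℕ} (hp : p.Prime) {B : ValuationSubring ℂ} (hB : B.valuation (p : ℂ) < 1)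
    {ψ : DirichletCharacter ℂ f} (h : IsTheta p ψ m) (hd : ¬ p ∣ nuF f m) : UnitIn B ψ m := by
  obtain ⟨hf, hpf, hm, hmp, hprim, hpar⟩ := h
  have : NeZero f := ⟨by omega⟩
  have h1 : f ≠ 1 ∨ m ≠ 1 := by
    by_contra hcon
    push Not at hcon
    obtain ⟨hc1, hc2⟩ := hcon
    subst hc1 hc2
    rw [DirichletCharacter.level_one ψ, pow_one, MulChar.one_apply (isUnit_one.neg : IsUnit (-1 : ZMod 1))] at hpar
    norm_num at hpar
  have h2 : ¬ p ∣ f := fun h => hpf (h.mul_right _)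
  have h3 := val_gB hp B hB hm hmp h1 h2 ψ
  unfold UnitIn
  have h4 : genBernoulli m ψ = gB m ψ := rfl
  rw [h4, h3]
  exact val_of_not_dvd hm hp hd B hB (mem_AA.2 ⟨hprim, hpar⟩)

lemma ne_one {p f m : ℕ} {ψ : DirichletCharacter ℂ f} (h : IsTheta p ψ m) : f ≠ 1 ∨ m ≠ 1 := by
  obtain ⟨_, _, _, _, _, hpar⟩ := h
  by_contra hcon
  push Not at hcon
  obtain ⟨hc1, hc2⟩ := hcon
  subst hc1 hc2
  rw [DirichletCharacter.level_one ψ, pow_one, MulChar.one_apply (isUnit_one.neg : IsUnit (-1 : ZMod 1))] at hpar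
  norm_num at hpar

lemma count {p W : ℕ} (hp : p.Prime) {B : ValuationSubring ℂ} (hB : B.valuation (p : ℂ) < 1) :
    (nonUnits p W B).Finite ∧ (nonUnits p W B).ncard ≤ VV p W := by
  classical
  set bad : ∀ f : ℕ, ℕ → Finset (DirichletCharacter ℂ f) := fun f m =>
    if h : f ≠ 0 ∧ 1 ≤ m ∧ ¬ p ∣ f.totient then
      (@AA f ⟨h.1⟩ m).filter (fun ψ => B.valuation (@al f ⟨h.1⟩ m ψ) ≠ 1) else ∅ with hbad
  have hle : ∀ f m, 1 ≤ f → 1 ≤ m → (bad f m).card ≤ (nuF f m).factorization p := by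
    intro f m hf hm
    rw [hbad]
    simp only
    split_ifs with h
    · have : NeZero f := ⟨h.1⟩
      have h1 := pow_dvd_nuF (f := f) hm hp h.2.2 B hB
      exact (hp.pow_dvd_iff_le_factorization (nuF_ne_zero f m)).1 h1
    · simp
  set T : Finset ((Σ f : ℕ, DirichletCharacter ℂ f) × ℕ) := (Icc 1 W).biUnion fun f =>
    (Icc 1 (W / f)).biUnion fun m => (bad f m).image fun ψ => (⟨f, ψ⟩, m) with hT
  have hsub : nonUnits p W B ⊆ (T : Set ((Σ f : ℕ, DirichletCharacter ℂ f) × ℕ)) := by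
    rintro ⟨⟨f, ψ⟩, m⟩ ⟨h1, h2, h3⟩
    simp only at h1 h2 h3
    have hne := ne_one h1
    obtain ⟨hf, hpf, hm, hmp, hprim, hpar⟩ := h1
    rw [Finset.mem_coe, hT, mem_biUnion]
    have hfW : f ≤ W := by
      calc f = f * 1 := (mul_one f).symm
        _ ≤ f * m := Nat.mul_le_mul_left _ hm
        _ ≤ W := h2
    refine ⟨f, mem_Icc.2 ⟨hf, hfW⟩, ?_⟩
    rw [mem_biUnion]
    refine ⟨m, mem_Icc.2 ⟨hm, ?_⟩, ?_⟩
    · rw [Nat.le_div_iff_mul_le (by omega), mul_comm]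
      exact h2
    · rw [mem_image]
      refine ⟨ψ, ?_, rfl⟩
      have hc : f ≠ 0 ∧ 1 ≤ m ∧ ¬ p ∣ f.totient := ⟨by omega, hm, fun h => hpf (h.mul_left _)⟩
      rw [hbad]
      simp only
      rw [dif_pos hc, mem_filter]
      have : NeZero f := ⟨hc.1⟩
      refine ⟨mem_AA.2 ⟨hprim, hpar⟩, fun h => h3 ?_⟩
      unfold UnitIn
      have h4 : genBernoulli m ψ = gB m ψ := rfl
      rw [h4, val_gB hp B hB hm hmp hne (fun h => hpf (h.mul_right _)) ψ]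
      exact h
  refine ⟨T.finite_toSet.subset hsub, ?_⟩
  have h1 := Set.ncard_le_ncard hsub T.finite_toSet
  rw [Set.ncard_coe_finset] at h1
  refine h1.trans ?_
  rw [hT]
  refine card_biUnion_le.trans ?_
  unfold VV
  refine Finset.sum_le_sum fun f hf => ?_
  refine card_biUnion_le.trans ?_
  refine Finset.sum_le_sum fun m hm => ?_
  exact card_image_le.trans (hle f m (mem_Icc.1 hf).1 (mem_Icc.1 hm).1)

lemma towers {p : ℕ} (hp : p.Prime) (h5 : 5 ≤ p) (hlog : 1 ≤ Real.log p)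
    (hR2 : (RR 2 p : ℝ) ≤ (Real.log p) ^ 2) (hR3 : (RR 3 p : ℝ) ≤ (Real.log p) ^ 2)
    (h2 : ∀ N m K : ℕ, 1 ≤ N → 1 ≤ m → (Real.log p) ^ 8 * ((m : ℝ) ^ 3 * (N : ℝ) ^ 5) ≤ p →
      ((2 : ℕ) : ℝ) ^ K < (m : ℝ) * (N : ℝ) ^ 3 * (Real.log p) ^ 4 → ¬ p ∣ nuF (N * 2 ^ K) m)
    (h3 : ∀ N m K : ℕ, 1 ≤ N → 1 ≤ m → (Real.log p) ^ 8 * ((m : ℝ) ^ 3 * (N : ℝ) ^ 5) ≤ p →
      ((3 : ℕ) : ℝ) ^ K < (m : ℝ) * (N : ℝ) ^ 3 * (Real.log p) ^ 4 → ¬ p ∣ nuF (N * 3 ^ K) m)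
    {B : ValuationSubring ℂ} (hB : B.valuation (p : ℂ) < 1) (f m : ℕ) (ψ : DirichletCharacter ℂ f)
    (hθ : IsTheta p ψ m) (ℓ N K : ℕ) (hℓ : ℓ = 2 ∨ ℓ = 3) (hf : f = N * ℓ ^ K)
    (hsize : (Real.log p) ^ 8 * ((m : ℝ) ^ 3 * (N : ℝ) ^ 5) ≤ p) : UnitIn B ψ m := by
  have hℓp : ℓ.Prime := by rcases hℓ with rfl | rfl <;> norm_num
  have hf1 := hθ.1
  have hm := hθ.2.2.1
  have hN0 : N ≠ 0 := by
    rintro rfl
    rw [zero_mul] at hf
    omega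
  -- take out the powers of `ℓ` from `N`
  obtain ⟨j, N', hN', hNN⟩ := Nat.exists_eq_pow_mul_and_not_dvd hN0 ℓ hℓp.ne_one
  have hN'0 : 1 ≤ N' := by
    rcases Nat.eq_zero_or_pos N' with h | h
    · subst h
      exact absurd (dvd_zero ℓ) hN'
    · exact h
  have hN'N : N' ≤ N := by
    rw [hNN]
    exact Nat.le_mul_of_pos_left _ (pow_pos hℓp.pos _)
  have hf' : f = N' * ℓ ^ (j + K) := by
    rw [hf, hNN, pow_add]
    ring
  have hN1 : (1 : ℝ) ≤ N' := by exact_mod_cast hN'0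
  have hm1 : (1 : ℝ) ≤ m := by exact_mod_cast hm
  have hsize' : (Real.log p) ^ 8 * ((m : ℝ) ^ 3 * (N' : ℝ) ^ 5) ≤ p := by
    refine le_trans ?_ hsize
    have : (N' : ℝ) ≤ N := by exact_mod_cast hN'N
    gcongr
  have hR : (RR ℓ p : ℝ) ≤ (Real.log p) ^ 2 := by
    rcases hℓ with rfl | rfl
    · exact hR2
    · exact hR3
  have hnd : (ℓ : ℝ) ^ (j + K) < (m : ℝ) * (N' : ℝ) ^ 3 * (Real.log p) ^ 4 → ¬ p ∣ nuF (N' * ℓ ^ (j + K)) m := by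
    rcases hℓ with rfl | rfl
    · exact h2 N' m (j + K) hN'0 hm hsize'
    · exact h3 N' m (j + K) hN'0 hm hsize'
  by_cases hc : (ℓ : ℝ) ^ (j + K) < (m : ℝ) * (N' : ℝ) ^ 3 * (Real.log p) ^ 4
  · apply unit_of_not_dvd hp hB hθ
    rw [hf']
    exact hnd hc
  · push Not at hc
    obtain ⟨_, _, _, hmp, hprim, hpar⟩ := id hθ
    have hNp : N' < p := by
      have e1 : (1 : ℝ) ≤ (Real.log p) ^ 8 := one_le_pow₀ hlog
      have e2 : (1 : ℝ) ≤ (m : ℝ) ^ 3 := one_le_pow₀ hm1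
      have e3 : (N' : ℝ) ≤ (N' : ℝ) ^ 5 := le_self_pow₀ hN1 (by norm_num)
      have e4 : (N' : ℝ) ≤ p := by
        refine le_trans ?_ hsize'
        have e5 : (N' : ℝ) ≤ (m : ℝ) ^ 3 * (N' : ℝ) ^ 5 := by nlinarith
        nlinarith
      have e6 : N' ≤ p := by exact_mod_cast e4
      rcases e6.eq_or_lt with e7 | e7
      · exfalso
        apply hθ.2.1
        rw [hf', ← e7]
        exact Dvd.dvd.mul_right (dvd_mul_right _ _) _
      · exact e7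
    have hsz : m * N' ^ 3 * RR ℓ p ^ 2 ≤ ℓ ^ (j + K) := by
      have e1 : ((m : ℝ) * (N' : ℝ) ^ 3 * (RR ℓ p : ℝ) ^ 2) ≤ (ℓ : ℝ) ^ (j + K) := by
        refine le_trans ?_ hc
        have e2 : (RR ℓ p : ℝ) ^ 2 ≤ (Real.log p) ^ 4 := by
          calc (RR ℓ p : ℝ) ^ 2 ≤ ((Real.log p) ^ 2) ^ 2 := pow_le_pow_left₀ (Nat.cast_nonneg _) hR 2
            _ = (Real.log p) ^ 4 := by rw [← pow_mul]
        gcongr
      exact_mod_cast e1
    subst hf'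
    exact tower hp B hB hℓ h5 hN'0 hNp ((Nat.Prime.coprime_iff_not_dvd hℓp).2 hN').symm hm hmp hsz ψ hprim hpar

end Pool.Agent.H424.GA
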